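import Mathlib

/-!
# Weighted convolution algebras `ℓ¹_w(Γ)`

`Γ` an additive commutative group, `w : Wt Γ` a submultiplicative positive weight with `w 0 = 1`.
`A1 𝕜 w` (`𝕜 = ℝ` or `ℂ`) is the commutative Banach algebra of all families `a : Γ → 𝕜` with
`∑ ‖a g‖ * w g < ∞`, with convolution as product.
-/

open scoped ENNReal BigOperators
noncomputable section
namespace CMC

/-- A submultiplicative positive weight on an additive group. -/
structure Wt (Γ : Type) [AddCommGroup Γ] where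
  /-- the weight -/
  toFun : Γ → ℝ
  pos' : ∀ g, 0 < toFun g
  zero' : toFun 0 = 1
  add' : ∀ g h, toFun (g + h) ≤ toFun g * toFun h

variable {𝕜 : Type} [RCLike 𝕜] {Γ : Type} [AddCommGroup Γ]

instance : CoeFun (Wt Γ) (fun _ => Γ → ℝ) := ⟨Wt.toFun⟩

theorem Wt.pos (w : Wt Γ) (g : Γ) : 0 < w g := w.pos' g
theorem Wt.nonneg (w : Wt Γ) (g : Γ) : 0 ≤ w g := (w.pos' g).le
theorem Wt.ne (w : Wt Γ) (g : Γ) : w g ≠ 0 := (w.pos' g).ne'
@[simp] theorem Wt.zero (w : Wt Γ) : w 0 = 1 := w.zero'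
theorem Wt.add_le (w : Wt Γ) (g h : Γ) : w (g + h) ≤ w g * w h := w.add' g h
theorem Wt.sub_le (w : Wt Γ) (g h : Γ) : w g ≤ w h * w (g - h) := by
  have := w.add' h (g - h)
  rwa [add_sub_cancel] at this

/-- The weighted `ℓ¹` space; the element `a` is stored as the family `g ↦ a g * w g`. -/
def A1 (𝕜 : Type) [RCLike 𝕜] (_w : Wt Γ) : Type := lp (fun _ : Γ => 𝕜) 1

namespace A1

variable {w : Wt Γ}

instance : NormedAddCommGroup (A1 𝕜 w) := inferInstanceAs (NormedAddCommGroup (lp (fun _ : Γ => 𝕜) 1))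
instance : NormedSpace 𝕜 (A1 𝕜 w) := inferInstanceAs (NormedSpace 𝕜 (lp (fun _ : Γ => 𝕜) 1))
instance : CompleteSpace (A1 𝕜 w) := inferInstanceAs (CompleteSpace (lp (fun _ : Γ => 𝕜) 1))

/-- The stored family. -/
def raw (a : A1 𝕜 w) : lp (fun _ : Γ => 𝕜) 1 := a

/-- The coefficients. -/
def cf (a : A1 𝕜 w) (g : Γ) : 𝕜 := (raw a : Γ → 𝕜) g / ((w g : ℝ) : 𝕜)

theorem raw_eq (a : A1 𝕜 w) (g : Γ) : (raw a : Γ → 𝕜) g = cf a g * ((w g : ℝ) : 𝕜) := by
  unfold cf
  rw [div_mul_cancel₀]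
  exact RCLike.ofReal_ne_zero.2 (w.ne g)

theorem norm_raw (a : A1 𝕜 w) (g : Γ) : ‖(raw a : Γ → 𝕜) g‖ = ‖cf a g‖ * w g := by
  rw [raw_eq, norm_mul, RCLike.norm_ofReal, abs_of_nonneg (w.nonneg g)]

@[ext] theorem ext {a b : A1 𝕜 w} (h : ∀ g, cf a g = cf b g) : a = b := by
  have : raw a = raw b := by
    apply lp.ext
    funext g
    rw [raw_eq, raw_eq, h]
  exact this

@[simp] theorem cf_add (a b : A1 𝕜 w) (g : Γ) : cf (a + b) g = cf a g + cf b g := by
  have : (raw (a + b) : Γ → 𝕜) g = (raw a : Γ → 𝕜) g + (raw b : Γ → 𝕜) g := rfl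
  unfold cf; rw [this]; ring
@[simp] theorem cf_zero (g : Γ) : cf (0 : A1 𝕜 w) g = 0 := by
  have : (raw (0 : A1 𝕜 w) : Γ → 𝕜) g = 0 := rfl
  unfold cf; rw [this]; simp
@[simp] theorem cf_neg (a : A1 𝕜 w) (g : Γ) : cf (-a) g = - cf a g := by
  have : (raw (-a) : Γ → 𝕜) g = -(raw a : Γ → 𝕜) g := rfl
  unfold cf; rw [this]; ring
@[simp] theorem cf_sub (a b : A1 𝕜 w) (g : Γ) : cf (a - b) g = cf a g - cf b g := by
  have : (raw (a - b) : Γ → 𝕜) g = (raw a : Γ → 𝕜) g - (raw b : Γ → 𝕜) g := rfl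
  unfold cf; rw [this]; ring
@[simp] theorem cf_smul (c : 𝕜) (a : A1 𝕜 w) (g : Γ) : cf (c • a) g = c * cf a g := by
  have : (raw (c • a) : Γ → 𝕜) g = c * (raw a : Γ → 𝕜) g := rfl
  unfold cf; rw [this]; ring

theorem summable (a : A1 𝕜 w) : Summable fun g => ‖cf a g‖ * w g := by
  have h := (lp.memℓp (raw a)).summable (by simp)
  simp only [ENNReal.toReal_one, Real.rpow_one] at h
  simpa only [norm_raw] using h

theorem norm_eq (a : A1 𝕜 w) : ‖a‖ = ∑' g, ‖cf a g‖ * w g := by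
  have h := lp.norm_eq_tsum_rpow (p := 1) (by simp) (raw a)
  simp only [ENNReal.toReal_one, Real.rpow_one, ne_eq, one_ne_zero, not_false_eq_true, div_self,
    norm_raw] at h
  exact h

/-- Constructor from a weighted summable family. -/
def mk (f : Γ → 𝕜) (hf : Summable fun g => ‖f g‖ * w g) : A1 𝕜 w :=
  (⟨fun g => f g * ((w g : ℝ) : 𝕜), by
    refine (memℓp_gen_iff (by simp)).2 ?_
    simp only [ENNReal.toReal_one, Real.rpow_one]
    refine hf.congr fun g => ?_
    rw [norm_mul, RCLike.norm_ofReal, abs_of_nonneg (w.nonneg g)]⟩ :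
      lp (fun _ : Γ => 𝕜) 1)

@[simp] theorem cf_mk (f : Γ → 𝕜) (hf : Summable fun g => ‖f g‖ * w g) (g : Γ) :
    cf (mk f hf) g = f g := by
  have : (raw (mk f hf) : Γ → 𝕜) g = f g * ((w g : ℝ) : 𝕜) := rfl
  unfold cf
  rw [this, mul_div_assoc, div_self (RCLike.ofReal_ne_zero.2 (w.ne g)), mul_one]

theorem norm_mk_le {f : Γ → 𝕜} {hf : Summable fun g => ‖f g‖ * w g} {C : ℝ}
    (h : ∑' g, ‖f g‖ * w g ≤ C) : ‖mk f hf‖ ≤ C := by
  rw [norm_eq]
  simpa only [cf_mk] using h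

theorem le_norm (a : A1 𝕜 w) (g : Γ) : ‖cf a g‖ * w g ≤ ‖a‖ := by
  rw [norm_eq]
  exact (summable a).le_tsum g fun j _ => mul_nonneg (norm_nonneg _) (w.nonneg j)

theorem norm_cf_le (a : A1 𝕜 w) (g : Γ) : ‖cf a g‖ ≤ ‖a‖ / w g := by
  rw [le_div_iff₀ (w.pos g)]
  exact le_norm a g

/-- Coefficient functional. -/
def cfL (𝕜 : Type) [RCLike 𝕜] (w : Wt Γ) (g : Γ) : A1 𝕜 w →L[𝕜] 𝕜 :=
  LinearMap.mkContinuous
    { toFun := fun a => cf a g
      map_add' := fun a b => cf_add a b g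
      map_smul' := fun c a => cf_smul c a g } (1 / w g) (fun a => by
        have := norm_cf_le a g
        rw [div_eq_mul_one_div, mul_comm] at this
        exact this)

@[simp] theorem cfL_apply (a : A1 𝕜 w) (g : Γ) : cfL 𝕜 w g a = cf a g := rfl

/-! ### The product -/

/-- The family `(h,k) ↦ a h * b k` weighted by `w (h + k)` is summable. -/
theorem summable_prod (a b : A1 𝕜 w) :
    Summable fun p : Γ × Γ => ‖cf a p.1 * cf b p.2‖ * w (p.1 + p.2) := by
  have h := (summable a).mul_of_nonneg (summable b)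
    (fun g => mul_nonneg (norm_nonneg _) (w.nonneg g))
    (fun g => mul_nonneg (norm_nonneg _) (w.nonneg g))
  refine Summable.of_nonneg_of_le (fun p => mul_nonneg (norm_nonneg _) (w.nonneg _))
    (fun p => ?_) h
  rw [norm_mul]
  have := w.add_le p.1 p.2
  have h1 := norm_nonneg (cf a p.1)
  have h2 := norm_nonneg (cf b p.2)
  calc ‖cf a p.1‖ * ‖cf b p.2‖ * w (p.1 + p.2)
      ≤ ‖cf a p.1‖ * ‖cf b p.2‖ * (w p.1 * w p.2) :=
        mul_le_mul_of_nonneg_left this (mul_nonneg h1 h2)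
    _ = ‖cf a p.1‖ * w p.1 * (‖cf b p.2‖ * w p.2) := by ring

/-- `(g,h) ↦ (h, g - h)` -/
def shearEquiv (Γ : Type) [AddCommGroup Γ] : Γ × Γ ≃ Γ × Γ where
  toFun p := (p.2, p.1 - p.2)
  invFun p := (p.1 + p.2, p.1)
  left_inv p := by simp
  right_inv p := by simp

theorem summable_shear (a b : A1 𝕜 w) :
    Summable fun p : Γ × Γ => ‖cf a p.2 * cf b (p.1 - p.2)‖ * w p.1 := by
  have h := (shearEquiv Γ).summable_iff.2 (summable_prod a b)
  refine h.congr fun p => ?_
  simp [shearEquiv, Function.comp]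

theorem summable_conv (a b : A1 𝕜 w) (g : Γ) : Summable fun h => cf a h * cf b (g - h) := by
  have h1 := (summable_shear a b).prod_factor g
  have h2 := h1.mul_right (w g)⁻¹
  refine Summable.of_norm ?_
  refine h2.congr fun h => ?_
  field_simp [w.ne g]

theorem summable_conv_norm (a b : A1 𝕜 w) :
    Summable fun g => ‖∑' h, cf a h * cf b (g - h)‖ * w g := by
  have h1 := (summable_shear a b).prod
  refine Summable.of_nonneg_of_le (fun g => mul_nonneg (norm_nonneg _) (w.nonneg g))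
    (fun g => ?_) h1
  show _ ≤ ∑' h, ‖cf a h * cf b (g - h)‖ * w g
  rw [tsum_mul_right]
  refine mul_le_mul_of_nonneg_right ?_ (w.nonneg g)
  exact norm_tsum_le_tsum_norm (summable_conv a b g).norm

instance : Mul (A1 𝕜 w) := ⟨fun a b => mk (fun g => ∑' h, cf a h * cf b (g - h))
  (summable_conv_norm a b)⟩

theorem cf_mul (a b : A1 𝕜 w) (g : Γ) : cf (a * b) g = ∑' h, cf a h * cf b (g - h) :=
  cf_mk _ _ g

theorem hasSum_mul (a b : A1 𝕜 w) (g : Γ) :
    HasSum (fun h => cf a h * cf b (g - h)) (cf (a * b) g) := by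
  rw [cf_mul]; exact (summable_conv a b g).hasSum

protected theorem norm_mul_le (a b : A1 𝕜 w) : ‖a * b‖ ≤ ‖a‖ * ‖b‖ := by
  rw [norm_eq (a * b)]
  have hs := summable_shear a b
  calc ∑' g, ‖cf (a * b) g‖ * w g
      ≤ ∑' g, ∑' h, ‖cf a h * cf b (g - h)‖ * w g := by
        refine Summable.tsum_le_tsum (fun g => ?_) (summable (a * b)) hs.prod
        rw [tsum_mul_right, cf_mul]
        exact mul_le_mul_of_nonneg_right (norm_tsum_le_tsum_norm (summable_conv a b g).norm)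
          (w.nonneg g)
    _ = ∑' p : Γ × Γ, ‖cf a p.2 * cf b (p.1 - p.2)‖ * w p.1 := by
        rw [hs.tsum_prod]
    _ = ∑' p : Γ × Γ, ‖cf a p.1 * cf b p.2‖ * w (p.1 + p.2) := by
        rw [← (shearEquiv Γ).symm.tsum_eq]
        refine tsum_congr fun p => ?_
        simp [shearEquiv]
    _ ≤ ∑' p : Γ × Γ, (‖cf a p.1‖ * w p.1) * (‖cf b p.2‖ * w p.2) := by
        refine Summable.tsum_le_tsum (fun p => ?_) (summable_prod a b)
          ((summable a).mul_of_nonneg (summable b)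
            (fun g => mul_nonneg (norm_nonneg _) (w.nonneg g))
            (fun g => mul_nonneg (norm_nonneg _) (w.nonneg g)))
        rw [norm_mul]
        calc ‖cf a p.1‖ * ‖cf b p.2‖ * w (p.1 + p.2)
            ≤ ‖cf a p.1‖ * ‖cf b p.2‖ * (w p.1 * w p.2) :=
              mul_le_mul_of_nonneg_left (w.add_le _ _)
                (mul_nonneg (norm_nonneg _) (norm_nonneg _))
          _ = ‖cf a p.1‖ * w p.1 * (‖cf b p.2‖ * w p.2) := by ring
    _ = ‖a‖ * ‖b‖ := by
        rw [norm_eq, norm_eq]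
        exact ((summable a).tsum_mul_tsum (summable b)
          ((summable a).mul_of_nonneg (summable b)
            (fun g => mul_nonneg (norm_nonneg _) (w.nonneg g))
            (fun g => mul_nonneg (norm_nonneg _) (w.nonneg g)))).symm

/-- Monomial `X^g`. -/
def mono (𝕜 : Type) [RCLike 𝕜] (w : Wt Γ) (g : Γ) : A1 𝕜 w :=
  mk (fun h => by classical exact if h = g then 1 else 0) (by
    classical
    refine summable_of_ne_finset_zero (s := {g}) fun h hh => ?_
    have : h ≠ g := by simpa using hh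
    simp [this])

theorem cf_mono (g h : Γ) [Decidable (h = g)] : cf (mono 𝕜 w g) h = if h = g then 1 else 0 := by
  unfold mono
  rw [cf_mk]
  split_ifs <;> rfl

theorem cf_mono_self (g : Γ) : cf (mono 𝕜 w g) g = 1 := by
  classical
  rw [cf_mono]; simp

theorem cf_mono_ne {g h : Γ} (hh : h ≠ g) : cf (mono 𝕜 w g) h = 0 := by
  classical
  rw [cf_mono]; simp [hh]

theorem norm_mono (g : Γ) : ‖mono 𝕜 w g‖ = w g := by
  rw [norm_eq, tsum_eq_single g]
  · rw [cf_mono_self]; simp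
  · intro h hh
    rw [cf_mono_ne hh]; simp

instance : One (A1 𝕜 w) := ⟨mono 𝕜 w 0⟩

theorem one_def : (1 : A1 𝕜 w) = mono 𝕜 w 0 := rfl

theorem cf_mono_mul (g : Γ) (a : A1 𝕜 w) (h : Γ) : cf (mono 𝕜 w g * a) h = cf a (h - g) := by
  rw [cf_mul, tsum_eq_single g]
  · rw [cf_mono_self, one_mul]
  · intro k hk
    rw [cf_mono_ne hk, zero_mul]

protected theorem mul_comm' (a b : A1 𝕜 w) : a * b = b * a := by
  ext g
  rw [cf_mul, cf_mul, ← (Equiv.subLeft g).tsum_eq]
  refine tsum_congr fun h => ?_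
  simp [mul_comm]

protected theorem one_mul' (a : A1 𝕜 w) : 1 * a = a := by
  ext g
  rw [one_def, cf_mono_mul, sub_zero]

/-- triple sums: `(h,k) ↦ a h * b k * c (g - h - k)` summable. -/
theorem summable_triple (a b c : A1 𝕜 w) (g : Γ) :
    Summable fun p : Γ × Γ => cf a p.1 * (cf b p.2 * cf c (g - p.1 - p.2)) := by
  -- bound by the product of `‖a‖`-family and the `b` family times `‖c‖`
  have h1 : Summable fun p : Γ × Γ => (‖cf a p.1‖ * w p.1) * (‖cf b p.2‖ * w p.2) :=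
    (summable a).mul_of_nonneg (summable b)
      (fun g => mul_nonneg (norm_nonneg _) (w.nonneg g))
      (fun g => mul_nonneg (norm_nonneg _) (w.nonneg g))
  have h2 := h1.mul_right (‖c‖ * (w g)⁻¹)
  refine Summable.of_norm_bounded h2 fun p => ?_
  rw [norm_mul, norm_mul]
  have hc := le_norm c (g - p.1 - p.2)
  have hw : w g ≤ w p.1 * w p.2 * w (g - p.1 - p.2) := by
    calc w g ≤ w (p.1 + p.2) * w (g - (p.1 + p.2)) := w.sub_le g (p.1 + p.2)
      _ ≤ (w p.1 * w p.2) * w (g - (p.1 + p.2)) :=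
          mul_le_mul_of_nonneg_right (w.add_le _ _) (w.nonneg _)
      _ = w p.1 * w p.2 * w (g - p.1 - p.2) := by rw [sub_add_eq_sub_sub]
  have hA := norm_nonneg (cf a p.1)
  have hB := norm_nonneg (cf b p.2)
  have hC := norm_nonneg (cf c (g - p.1 - p.2))
  have key : ‖cf c (g - p.1 - p.2)‖ * w g ≤ w p.1 * w p.2 * ‖c‖ := by
    calc ‖cf c (g - p.1 - p.2)‖ * w g
        ≤ ‖cf c (g - p.1 - p.2)‖ * (w p.1 * w p.2 * w (g - p.1 - p.2)) :=
          mul_le_mul_of_nonneg_left hw hC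
      _ = w p.1 * w p.2 * (‖cf c (g - p.1 - p.2)‖ * w (g - p.1 - p.2)) := by ring
      _ ≤ w p.1 * w p.2 * ‖c‖ :=
          mul_le_mul_of_nonneg_left hc (mul_nonneg (w.nonneg _) (w.nonneg _))
  have key' : ‖cf c (g - p.1 - p.2)‖ ≤ w p.1 * w p.2 * ‖c‖ * (w g)⁻¹ := by
    rw [← div_eq_mul_inv, le_div_iff₀ (w.pos g)]
    exact key
  calc ‖cf a p.1‖ * (‖cf b p.2‖ * ‖cf c (g - p.1 - p.2)‖)
      ≤ ‖cf a p.1‖ * (‖cf b p.2‖ * (w p.1 * w p.2 * ‖c‖ * (w g)⁻¹)) := by gcongr
    _ = (‖cf a p.1‖ * w p.1) * (‖cf b p.2‖ * w p.2) * (‖c‖ * (w g)⁻¹) := by ring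

protected theorem mul_assoc' (a b c : A1 𝕜 w) : a * b * c = a * (b * c) := by
  ext g
  have hL : cf (a * b * c) g = ∑' k, ∑' h, cf a h * (cf b (k - h) * cf c (g - k)) := by
    rw [cf_mul]
    refine tsum_congr fun k => ?_
    rw [cf_mul, ← tsum_mul_right]
    refine tsum_congr fun h => ?_
    ring
  have hR : cf (a * (b * c)) g = ∑' h, ∑' k, cf a h * (cf b k * cf c (g - h - k)) := by
    rw [cf_mul]
    refine tsum_congr fun h => ?_
    rw [cf_mul, ← tsum_mul_left]
  have hs := summable_triple a b c g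
  rw [hL, hR, ← hs.tsum_prod]
  have hs' : Summable fun p : Γ × Γ => cf a p.2 * (cf b (p.1 - p.2) * cf c (g - p.1)) := by
    have := (shearEquiv Γ).summable_iff.2 hs
    refine this.congr fun p => ?_
    simp [shearEquiv, Function.comp]
  rw [← hs'.tsum_prod, ← (shearEquiv Γ).symm.tsum_eq]
  refine tsum_congr fun p => ?_
  simp [shearEquiv, sub_sub]

instance : NormedCommRing (A1 𝕜 w) :=
  { (inferInstance : NormedAddCommGroup (A1 𝕜 w)) with
    mul := (· * ·)
    one := 1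
    left_distrib := fun a b c => by
      ext g
      rw [cf_add, cf_mul, cf_mul, cf_mul, ← (summable_conv a b g).tsum_add (summable_conv a c g)]
      refine tsum_congr fun h => ?_
      rw [cf_add]; ring
    right_distrib := fun a b c => by
      ext g
      rw [cf_add, cf_mul, cf_mul, cf_mul, ← (summable_conv a c g).tsum_add (summable_conv b c g)]
      refine tsum_congr fun h => ?_
      rw [cf_add]; ring
    zero_mul := fun a => by
      ext g
      rw [cf_mul]; simp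
    mul_zero := fun a => by
      ext g
      rw [cf_mul]; simp
    mul_assoc := A1.mul_assoc'
    one_mul := A1.one_mul'
    mul_one := fun a => by rw [A1.mul_comm']; exact A1.one_mul' a
    mul_comm := A1.mul_comm'
    norm_mul_le := A1.norm_mul_le }

instance : Algebra 𝕜 (A1 𝕜 w) :=
  Algebra.ofModule
    (fun c a b => by
      ext g
      rw [cf_smul, cf_mul, cf_mul, ← tsum_mul_left]
      refine tsum_congr fun h => ?_
      rw [cf_smul]; ring)
    (fun c a b => by
      ext g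
      rw [cf_smul, cf_mul, cf_mul, ← tsum_mul_left]
      refine tsum_congr fun h => ?_
      rw [cf_smul]; ring)

instance : NormedAlgebra 𝕜 (A1 𝕜 w) where
  norm_smul_le c a := norm_smul_le c a

instance : NormOneClass (A1 𝕜 w) := ⟨by rw [one_def, norm_mono]; exact w.zero⟩

end A1
end CMC
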