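import Mathlib
import Pool.Agent.Lib.MP_479d4c_gt.H85.L1

/-!
# Operators on the weighted convolution algebras `A1 𝕜 w`

* `ev χ`   : the functional `a ↦ ∑ a g * χ g` (`‖χ g‖ ≤ w g`), multiplicative on supports where `χ` is;
* `SuppIn S a` : support conditions, closed subspaces / subalgebras;
* `diag m` : diagonal operators between different weights (projections, restrictions, derivations,
  integration);
* `conjA ι`: the involution `(a*)_g = conj (a_{ι g})`;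
* `hasSum_mono`: `a = ∑ a_g X^g`.
-/

open scoped ENNReal BigOperators ComplexConjugate
noncomputable section
namespace CMC
namespace A1

variable {𝕜 : Type} [RCLike 𝕜] {Γ : Type} [AddCommGroup Γ] {w w' w'' : Wt Γ}

/-! ### Expansion into monomials -/

theorem norm_smul_mono (c : 𝕜) (g : Γ) : ‖c • mono 𝕜 w g‖ = ‖c‖ * w g := by
  rw [norm_smul, norm_mono]

theorem hasSum_mono (a : A1 𝕜 w) : HasSum (fun g => cf a g • mono 𝕜 w g) a := by
  have hs : Summable fun g => cf a g • mono 𝕜 w g := by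
    refine Summable.of_norm ?_
    simpa only [norm_smul_mono] using summable a
  have key : ∑' g, cf a g • mono 𝕜 w g = a := by
    ext h
    have h1 := (cfL 𝕜 w h).map_tsum hs
    rw [cfL_apply] at h1
    rw [h1, tsum_eq_single h]
    · simp [cf_mono_self]
    · intro g hg
      rw [cfL_apply, cf_smul, cf_mono_ne hg.symm, mul_zero]
  rw [← key]
  convert hs.hasSum using 2
  rw [key]

theorem tsum_mono (a : A1 𝕜 w) : ∑' g, cf a g • mono 𝕜 w g = a := (hasSum_mono a).tsum_eq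

theorem mono_add (g h : Γ) : mono 𝕜 w (g + h) = mono 𝕜 w g * mono 𝕜 w h := by
  classical
  ext k
  rw [cf_mono_mul, cf_mono, cf_mono]
  simp only [sub_eq_iff_eq_add, add_comm h g]

@[simp] theorem mono_zero : mono 𝕜 w (0 : Γ) = 1 := rfl

/-- A continuous additive map is determined by its values on `c • X^g`. -/
theorem clm_ext {F : Type*} [NormedAddCommGroup F] [NormedSpace 𝕜 F] {T U : A1 𝕜 w →L[𝕜] F}
    (h : ∀ g, T (mono 𝕜 w g) = U (mono 𝕜 w g)) : T = U := by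
  ext a
  rw [← tsum_mono a]
  have hs := (hasSum_mono a).summable
  rw [T.map_tsum hs, U.map_tsum hs]
  refine tsum_congr fun g => ?_
  rw [map_smul, map_smul, h]

/-! ### Functionals -/

section Ev
variable {E : Type*} [NormedAddCommGroup E] [NormedSpace 𝕜 E] [CompleteSpace E]

omit [CompleteSpace E] in
theorem summable_ev (χ : Γ → E) (hχ : ∀ g, ‖χ g‖ ≤ w g) (a : A1 𝕜 w) :
    Summable fun g => ‖cf a g • χ g‖ := by
  refine Summable.of_nonneg_of_le (fun g => norm_nonneg _) (fun g => ?_) (summable a)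
  rw [norm_smul]
  exact mul_le_mul_of_nonneg_left (hχ g) (norm_nonneg _)

/-- The functional (or `E`-valued map) `a ↦ ∑ a g • χ g`. -/
def ev (χ : Γ → E) (hχ : ∀ g, ‖χ g‖ ≤ w g) : A1 𝕜 w →L[𝕜] E :=
  LinearMap.mkContinuous
    { toFun := fun a => ∑' g, cf a g • χ g
      map_add' := fun a b => by
        rw [← (summable_ev χ hχ a).of_norm.tsum_add (summable_ev χ hχ b).of_norm]
        refine tsum_congr fun g => ?_
        rw [cf_add, add_smul]
      map_smul' := fun c a => by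
        rw [RingHom.id_apply, ← (summable_ev χ hχ a).of_norm.tsum_const_smul]
        refine tsum_congr fun g => ?_
        rw [cf_smul, mul_smul] } 1 (fun a => by
      rw [one_mul, norm_eq]
      refine (norm_tsum_le_tsum_norm (summable_ev χ hχ a)).trans ?_
      refine Summable.tsum_le_tsum (fun g => ?_) (summable_ev χ hχ a) (summable a)
      rw [norm_smul]
      exact mul_le_mul_of_nonneg_left (hχ g) (norm_nonneg _))

theorem ev_apply (χ : Γ → E) (hχ : ∀ g, ‖χ g‖ ≤ w g) (a : A1 𝕜 w) :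
    ev χ hχ a = ∑' g, cf a g • χ g := rfl

theorem hasSum_ev (χ : Γ → E) (hχ : ∀ g, ‖χ g‖ ≤ w g) (a : A1 𝕜 w) :
    HasSum (fun g => cf a g • χ g) (ev χ hχ a) :=
  (summable_ev χ hχ a).of_norm.hasSum

theorem norm_ev_le (χ : Γ → E) (hχ : ∀ g, ‖χ g‖ ≤ w g) (a : A1 𝕜 w) : ‖ev χ hχ a‖ ≤ ‖a‖ := by
  rw [ev_apply, norm_eq]
  refine (norm_tsum_le_tsum_norm (summable_ev χ hχ a)).trans ?_
  refine Summable.tsum_le_tsum (fun g => ?_) (summable_ev χ hχ a) (summable a)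
  rw [norm_smul]
  exact mul_le_mul_of_nonneg_left (hχ g) (norm_nonneg _)

theorem ev_mono (χ : Γ → E) (hχ : ∀ g, ‖χ g‖ ≤ w g) (g : Γ) : ev χ hχ (mono 𝕜 w g) = χ g := by
  rw [ev_apply, tsum_eq_single g]
  · rw [cf_mono_self, one_smul]
  · intro h hh
    rw [cf_mono_ne hh, zero_smul]

end Ev

/-! ### Supports -/

/-- `a` is supported in `S`. -/
def SuppIn (S : Set Γ) (a : A1 𝕜 w) : Prop := ∀ g, g ∉ S → cf a g = 0

theorem SuppIn.mono_set {S T : Set Γ} (h : S ⊆ T) {a : A1 𝕜 w} (ha : SuppIn S a) : SuppIn T a :=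
  fun g hg => ha g fun h' => hg (h h')
theorem suppIn_univ (a : A1 𝕜 w) : SuppIn Set.univ a := fun _ hg => (hg trivial).elim
theorem SuppIn.zero {S : Set Γ} : SuppIn S (0 : A1 𝕜 w) := fun g _ => cf_zero g
theorem SuppIn.add {S : Set Γ} {a b : A1 𝕜 w} (ha : SuppIn S a) (hb : SuppIn S b) :
    SuppIn S (a + b) := fun g hg => by rw [cf_add, ha g hg, hb g hg, add_zero]
theorem SuppIn.neg {S : Set Γ} {a : A1 𝕜 w} (ha : SuppIn S a) :
    SuppIn S (-a) := fun g hg => by rw [cf_neg, ha g hg, neg_zero]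
theorem SuppIn.sub {S : Set Γ} {a b : A1 𝕜 w} (ha : SuppIn S a) (hb : SuppIn S b) :
    SuppIn S (a - b) := fun g hg => by rw [cf_sub, ha g hg, hb g hg, sub_zero]
theorem SuppIn.smul {S : Set Γ} {a : A1 𝕜 w} (c : 𝕜) (ha : SuppIn S a) :
    SuppIn S (c • a) := fun g hg => by rw [cf_smul, ha g hg, mul_zero]
theorem suppIn_mono {S : Set Γ} {g : Γ} (hg : g ∈ S) : SuppIn S (mono 𝕜 w g) := fun h hh => by
  exact cf_mono_ne fun e => hh (e ▸ hg)
theorem SuppIn.one {S : Set Γ} (h0 : (0 : Γ) ∈ S) : SuppIn S (1 : A1 𝕜 w) := suppIn_mono h0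
theorem SuppIn.mul {S T U : Set Γ} (hST : ∀ g ∈ S, ∀ h ∈ T, g + h ∈ U) {a b : A1 𝕜 w}
    (ha : SuppIn S a) (hb : SuppIn T b) : SuppIn U (a * b) := fun g hg => by
  rw [cf_mul]
  convert tsum_zero with h
  by_cases h1 : h ∈ S
  · by_cases h2 : g - h ∈ T
    · exact absurd (by simpa using hST h h1 (g - h) h2) hg
    · rw [hb _ h2, mul_zero]
  · rw [ha _ h1, zero_mul]
theorem SuppIn.inter {S T : Set Γ} {a : A1 𝕜 w} (ha : SuppIn S a) (hb : SuppIn T a) :
    SuppIn (S ∩ T) a := fun g hg => by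
  by_cases h1 : g ∈ S
  · exact hb g fun h2 => hg ⟨h1, h2⟩
  · exact ha g h1

theorem isClosed_suppIn (S : Set Γ) : IsClosed {a : A1 𝕜 w | SuppIn S a} := by
  have : {a : A1 𝕜 w | SuppIn S a} = ⋂ g ∈ Sᶜ, {a : A1 𝕜 w | cfL 𝕜 w g a = 0} := by
    ext a; simp [SuppIn]
  rw [this]
  exact isClosed_biInter fun g _ => isClosed_eq (cfL 𝕜 w g).continuous continuous_const

theorem SuppIn.tsum {ι : Type*} {S : Set Γ} {f : ι → A1 𝕜 w} (hs : Summable f)
    (h : ∀ i, SuppIn S (f i)) : SuppIn S (∑' i, f i) := fun g hg => by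
  have := (cfL 𝕜 w g).map_tsum hs
  rw [cfL_apply] at this
  rw [this]
  convert tsum_zero with i
  exact h i g hg

theorem SuppIn.pow {S : Set Γ} (h0 : (0 : Γ) ∈ S) (hS : ∀ g ∈ S, ∀ h ∈ S, g + h ∈ S) {a : A1 𝕜 w}
    (ha : SuppIn S a) : ∀ n : ℕ, SuppIn S (a ^ n)
  | 0 => by rw [pow_zero]; exact SuppIn.one h0
  | n + 1 => by rw [pow_succ]; exact (SuppIn.pow h0 hS ha n).mul hS ha

section EvMul
variable {E : Type*} [NormedRing E] [NormedAlgebra 𝕜 E] [CompleteSpace E]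

/-- Multiplicativity of `ev χ` on elements with supports in sets on which `χ` is
multiplicative. -/
theorem ev_mul (χ : Γ → E) (hχ : ∀ g, ‖χ g‖ ≤ w g) {S : Set Γ} {T : Set Γ}
    (hS : ∀ g ∈ S, ∀ h ∈ T, χ (g + h) = χ g * χ h) {a b : A1 𝕜 w}
    (ha : SuppIn S a) (hb : SuppIn T b) : ev χ hχ (a * b) = ev χ hχ a * ev χ hχ b := by
  have hsum : Summable fun p : Γ × Γ => (cf a p.1 * cf b p.2) • χ (p.1 + p.2) := by
    refine Summable.of_norm ?_
    refine Summable.of_nonneg_of_le (fun p => norm_nonneg _) (fun p => ?_) (summable_prod a b)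
    rw [norm_smul]
    exact mul_le_mul_of_nonneg_left (hχ _) (norm_nonneg _)
  have hsum' : Summable fun p : Γ × Γ => (cf a p.2 * cf b (p.1 - p.2)) • χ p.1 := by
    refine ((shearEquiv Γ).summable_iff.2 hsum).congr fun p => ?_
    simp [shearEquiv, Function.comp]
  have e1 : ev χ hχ (a * b) = ∑' p : Γ × Γ, (cf a p.2 * cf b (p.1 - p.2)) • χ p.1 := by
    rw [hsum'.tsum_prod, ev_apply]
    refine tsum_congr fun g => ?_
    rw [cf_mul]
    exact ((summable_conv a b g).tsum_smul_const (χ g)).symm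
  have e2 : ∑' p : Γ × Γ, (cf a p.2 * cf b (p.1 - p.2)) • χ p.1
      = ∑' p : Γ × Γ, (cf a p.1 * cf b p.2) • χ (p.1 + p.2) := by
    rw [← (shearEquiv Γ).symm.tsum_eq]
    refine tsum_congr fun p => ?_
    simp [shearEquiv]
  have e3 : ∑' p : Γ × Γ, (cf a p.1 * cf b p.2) • χ (p.1 + p.2)
      = ∑' p : Γ × Γ, (cf a p.1 • χ p.1) * (cf b p.2 • χ p.2) := by
    refine tsum_congr fun p => ?_
    rw [smul_mul_smul_comm]
    by_cases h1 : p.1 ∈ S
    · by_cases h2 : p.2 ∈ T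
      · rw [hS _ h1 _ h2]
      · rw [hb _ h2, mul_zero, zero_smul, zero_smul]
    · rw [ha _ h1, zero_mul, zero_smul, zero_smul]
  rw [e1, e2, e3, ev_apply, ev_apply]
  exact (tsum_mul_tsum_of_summable_norm (summable_ev χ hχ a) (summable_ev χ hχ b)).symm

theorem ev_one (χ : Γ → E) (hχ : ∀ g, ‖χ g‖ ≤ w g) (h0 : χ 0 = 1) :
    ev χ hχ (1 : A1 𝕜 w) = 1 := by
  rw [← mono_zero, ev_mono, h0]

end EvMul

/-! ### Diagonal operators -/

theorem summable_diag (m : Γ → 𝕜) (C : ℝ) (h : ∀ g, ‖m g‖ * w' g ≤ C * w g) (a : A1 𝕜 w) :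
    Summable fun g => ‖m g * cf a g‖ * w' g := by
  have h1 := (summable a).mul_left C
  refine Summable.of_nonneg_of_le (fun g => mul_nonneg (norm_nonneg _) (w'.nonneg g))
    (fun g => ?_) h1
  rw [norm_mul]
  calc ‖m g‖ * ‖cf a g‖ * w' g = ‖cf a g‖ * (‖m g‖ * w' g) := by ring
    _ ≤ ‖cf a g‖ * (C * w g) := mul_le_mul_of_nonneg_left (h g) (norm_nonneg _)
    _ = C * (‖cf a g‖ * w g) := by ring

theorem norm_diag_aux (m : Γ → 𝕜) (C : ℝ) (h : ∀ g, ‖m g‖ * w' g ≤ C * w g) (a : A1 𝕜 w) :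
    ‖mk (fun g => m g * cf a g) (summable_diag (w' := w') m C h a)‖ ≤ C * ‖a‖ := by
  refine norm_mk_le ?_
  rw [norm_eq, ← tsum_mul_left]
  refine Summable.tsum_le_tsum (fun g => ?_) (summable_diag m C h a) ((summable a).mul_left C)
  rw [norm_mul]
  calc ‖m g‖ * ‖cf a g‖ * w' g = ‖cf a g‖ * (‖m g‖ * w' g) := by ring
    _ ≤ ‖cf a g‖ * (C * w g) := mul_le_mul_of_nonneg_left (h g) (norm_nonneg _)
    _ = C * (‖cf a g‖ * w g) := by ring

/-- The diagonal operator `(a_g) ↦ (m_g a_g)` from `A1 𝕜 w` to `A1 𝕜 w'`. -/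
def diag (w w' : Wt Γ) (m : Γ → 𝕜) (C : ℝ) (h : ∀ g, ‖m g‖ * w' g ≤ C * w g) :
    A1 𝕜 w →L[𝕜] A1 𝕜 w' :=
  LinearMap.mkContinuous
    { toFun := fun a => mk (fun g => m g * cf a g) (summable_diag m C h a)
      map_add' := fun a b => by
        ext g; simp only [cf_mk, cf_add]; ring
      map_smul' := fun c a => by
        ext g; simp only [cf_mk, cf_smul, RingHom.id_apply]; ring } C (norm_diag_aux m C h)

@[simp] theorem cf_diag (m : Γ → 𝕜) (C : ℝ) (h : ∀ g, ‖m g‖ * w' g ≤ C * w g) (a : A1 𝕜 w) (g : Γ) :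
    cf (diag w w' m C h a) g = m g * cf a g := cf_mk _ (summable_diag m C h a) g

theorem norm_diag_le (m : Γ → 𝕜) (C : ℝ) (h : ∀ g, ‖m g‖ * w' g ≤ C * w g) (a : A1 𝕜 w) :
    ‖diag w w' m C h a‖ ≤ C * ‖a‖ := norm_diag_aux m C h a

theorem diag_suppIn {m : Γ → 𝕜} {C : ℝ} {h : ∀ g, ‖m g‖ * w' g ≤ C * w g} {S : Set Γ} {a : A1 𝕜 w}
    (ha : SuppIn S a) : SuppIn S (diag w w' m C h a) := fun g hg => by
  rw [cf_diag, ha g hg, mul_zero]

/-- Projection onto the coefficients in `S`. -/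
def proj (𝕜 : Type) [RCLike 𝕜] (w : Wt Γ) (S : Set Γ) : A1 𝕜 w →L[𝕜] A1 𝕜 w :=
  diag w w (fun g => by classical exact if g ∈ S then 1 else 0) 1 (fun g => by
    classical
    split_ifs <;> simp [w.nonneg])

theorem cf_proj (S : Set Γ) (a : A1 𝕜 w) (g : Γ) [Decidable (g ∈ S)] :
    cf (proj 𝕜 w S a) g = if g ∈ S then cf a g else 0 := by
  classical
  unfold proj
  rw [cf_diag]
  split_ifs <;> simp

theorem cf_proj_mem {S : Set Γ} (a : A1 𝕜 w) {g : Γ} (hg : g ∈ S) : cf (proj 𝕜 w S a) g = cf a g := by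
  classical
  rw [cf_proj, if_pos hg]
theorem cf_proj_not_mem {S : Set Γ} (a : A1 𝕜 w) {g : Γ} (hg : g ∉ S) : cf (proj 𝕜 w S a) g = 0 := by
  classical
  rw [cf_proj, if_neg hg]

theorem norm_proj_le (S : Set Γ) (a : A1 𝕜 w) : ‖proj 𝕜 w S a‖ ≤ ‖a‖ := by
  have := norm_diag_le (w := w) (w' := w) (fun g => by classical exact if g ∈ S then 1 else 0) 1
    (fun g => by
      classical
      split_ifs <;> simp [w.nonneg]) a
  rw [one_mul] at this
  exact this

theorem suppIn_proj (S : Set Γ) (a : A1 𝕜 w) : SuppIn S (proj 𝕜 w S a) := fun _ hg =>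
  cf_proj_not_mem a hg

theorem proj_eq_self_iff {S : Set Γ} {a : A1 𝕜 w} : proj 𝕜 w S a = a ↔ SuppIn S a := by
  constructor
  · intro h
    rw [← h]
    exact suppIn_proj S a
  · intro h
    ext g
    by_cases hg : g ∈ S
    · exact cf_proj_mem a hg
    · rw [cf_proj_not_mem a hg, h g hg]

theorem proj_add_proj_compl (S : Set Γ) (a : A1 𝕜 w) : proj 𝕜 w S a + proj 𝕜 w Sᶜ a = a := by
  ext g
  rw [cf_add]
  by_cases hg : g ∈ S
  · rw [cf_proj_mem a hg, cf_proj_not_mem a (by simpa using hg), add_zero]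
  · rw [cf_proj_not_mem a hg, cf_proj_mem a (by simpa using hg), zero_add]

/-- Restriction to a smaller weight. -/
def res (h : ∀ g, w' g ≤ w g) : A1 𝕜 w →L[𝕜] A1 𝕜 w' :=
  diag w w' (fun _ => 1) 1 (fun g => by simpa using h g)

@[simp] theorem cf_res (h : ∀ g, w' g ≤ w g) (a : A1 𝕜 w) (g : Γ) : cf (res h a) g = cf a g := by
  unfold res; rw [cf_diag, one_mul]

theorem norm_res_le (h : ∀ g, w' g ≤ w g) (a : A1 𝕜 w) : ‖res h a‖ ≤ ‖a‖ := by
  have := norm_diag_le (w := w) (w' := w') (fun _ => 1) 1 (fun g => by simpa using h g) a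
  rw [one_mul] at this
  exact this

theorem res_mul (h : ∀ g, w' g ≤ w g) (a b : A1 𝕜 w) : res h (a * b) = res h a * res h b := by
  ext g
  rw [cf_res, cf_mul, cf_mul]
  simp only [cf_res]

theorem res_one (h : ∀ g, w' g ≤ w g) : res h (1 : A1 𝕜 w) = 1 := by
  classical
  ext g
  rw [cf_res, one_def, one_def, cf_mono, cf_mono]

/-- The restriction as an algebra homomorphism. -/
def resHom (h : ∀ g, w' g ≤ w g) : A1 𝕜 w →ₐ[𝕜] A1 𝕜 w' :=
  AlgHom.ofLinearMap (res h).toLinearMap (res_one h) (res_mul h)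

@[simp] theorem resHom_apply (h : ∀ g, w' g ≤ w g) (a : A1 𝕜 w) : resHom h a = res h a := rfl

/-- Leibniz rule for an additive multiplier (`m (g + h) = m g + m h`), e.g. `m g = g_i`. -/
theorem diag_leibniz (m : Γ → 𝕜) (hm : ∀ g h, m (g + h) = m g + m h) (C : ℝ)
    (h : ∀ g, ‖m g‖ * w' g ≤ C * w g) (hw : ∀ g, w' g ≤ w g) (a b : A1 𝕜 w) :
    diag w w' m C h (a * b) = diag w w' m C h a * res hw b + res hw a * diag w w' m C h b := by
  ext g
  rw [cf_add, cf_diag, cf_mul, cf_mul, cf_mul, ← tsum_mul_left]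
  have s1 := summable_conv (diag w w' m C h a) (res hw b) g
  have s2 := summable_conv (res hw a) (diag w w' m C h b) g
  rw [← s1.tsum_add s2]
  refine tsum_congr fun k => ?_
  rw [cf_diag, cf_diag, cf_res, cf_res]
  have : m g = m k + m (g - k) := by rw [← hm, add_sub_cancel]
  rw [this]; ring

/-! ### The involution -/

theorem summable_conjA (ι : Γ ≃+ Γ) (hι : ∀ g, w (ι g) = w g) (a : A1 𝕜 w) :
    Summable fun g => ‖conj (cf a (ι g))‖ * w g := by
  have := ι.toEquiv.summable_iff.2 (summable a)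
  refine this.congr fun g => ?_
  have e : (ι.toEquiv g) = ι g := rfl
  simp only [Function.comp, e, hι, RCLike.norm_conj]

/-- `(a*)_g = conj (a_{ι g})`. -/
def conjA (ι : Γ ≃+ Γ) (hι : ∀ g, w (ι g) = w g) (a : A1 𝕜 w) : A1 𝕜 w :=
  mk (fun g => conj (cf a (ι g))) (summable_conjA ι hι a)

@[simp] theorem cf_conjA (ι : Γ ≃+ Γ) (hι : ∀ g, w (ι g) = w g) (a : A1 𝕜 w) (g : Γ) :
    cf (conjA ι hι a) g = conj (cf a (ι g)) := cf_mk _ _ g

theorem norm_conjA (ι : Γ ≃+ Γ) (hι : ∀ g, w (ι g) = w g) (a : A1 𝕜 w) :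
    ‖conjA ι hι a‖ = ‖a‖ := by
  rw [norm_eq, norm_eq, ← ι.toEquiv.tsum_eq (fun g => ‖cf a g‖ * w g)]
  refine tsum_congr fun g => ?_
  have e : (ι.toEquiv g) = ι g := rfl
  rw [cf_conjA, e, hι, RCLike.norm_conj]

theorem conjA_add (ι : Γ ≃+ Γ) (hι : ∀ g, w (ι g) = w g) (a b : A1 𝕜 w) :
    conjA ι hι (a + b) = conjA ι hι a + conjA ι hι b := by
  ext g; simp
theorem conjA_sub (ι : Γ ≃+ Γ) (hι : ∀ g, w (ι g) = w g) (a b : A1 𝕜 w) :
    conjA ι hι (a - b) = conjA ι hι a - conjA ι hι b := by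
  ext g; simp
theorem conjA_neg (ι : Γ ≃+ Γ) (hι : ∀ g, w (ι g) = w g) (a : A1 𝕜 w) :
    conjA ι hι (-a) = - conjA ι hι a := by
  ext g; simp
theorem conjA_zero (ι : Γ ≃+ Γ) (hι : ∀ g, w (ι g) = w g) :
    conjA ι hι (0 : A1 𝕜 w) = 0 := by
  ext g; simp
theorem conjA_smul (ι : Γ ≃+ Γ) (hι : ∀ g, w (ι g) = w g) (c : 𝕜) (a : A1 𝕜 w) :
    conjA ι hι (c • a) = conj c • conjA ι hι a := by
  ext g; simp
theorem conjA_mul (ι : Γ ≃+ Γ) (hι : ∀ g, w (ι g) = w g) (a b : A1 𝕜 w) :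
    conjA ι hι (a * b) = conjA ι hι a * conjA ι hι b := by
  ext g
  rw [cf_conjA, cf_mul, cf_mul, RCLike.conj_tsum, ← ι.toEquiv.tsum_eq]
  refine tsum_congr fun h => ?_
  have e : (ι.toEquiv h) = ι h := rfl
  rw [cf_conjA, cf_conjA, e, map_mul, map_sub]
theorem conjA_mono (ι : Γ ≃+ Γ) (hι : ∀ g, w (ι g) = w g) (hinv : ∀ g, ι (ι g) = g) (g : Γ) :
    conjA ι hι (mono 𝕜 w g) = mono 𝕜 w (ι g) := by
  classical
  ext h
  rw [cf_conjA, cf_mono, cf_mono]
  by_cases hh : ι h = g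
  · rw [if_pos hh, if_pos (by rw [← hh, hinv]), map_one]
  · rw [if_neg hh, if_neg (by rintro rfl; exact hh (hinv g)), map_zero]
theorem conjA_one (ι : Γ ≃+ Γ) (hι : ∀ g, w (ι g) = w g) : conjA ι hι (1 : A1 𝕜 w) = 1 := by
  classical
  ext g
  rw [cf_conjA, one_def, cf_mono, cf_mono]
  by_cases hg : g = 0
  · simp [hg]
  · have : ι g ≠ 0 := by simpa using hg
    simp [hg, this]
theorem conjA_conjA (ι : Γ ≃+ Γ) (hι : ∀ g, w (ι g) = w g) (hinv : ∀ g, ι (ι g) = g) (a : A1 𝕜 w) :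
    conjA ι hι (conjA ι hι a) = a := by
  ext g
  rw [cf_conjA, cf_conjA, hinv, RCLike.conj_conj]
theorem continuous_conjA (ι : Γ ≃+ Γ) (hι : ∀ g, w (ι g) = w g) :
    Continuous (conjA (𝕜 := 𝕜) (w := w) ι hι) := by
  refine LipschitzWith.continuous (K := 1) (LipschitzWith.of_dist_le_mul fun a b => ?_)
  rw [dist_eq_norm, dist_eq_norm, ← conjA_sub, norm_conjA]
  simp
theorem conjA_suppIn {ι : Γ ≃+ Γ} {hι : ∀ g, w (ι g) = w g} {S T : Set Γ}
    (h : ∀ g, ι g ∈ S → g ∈ T) {a : A1 𝕜 w} (ha : SuppIn S a) : SuppIn T (conjA ι hι a) :=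
  fun g hg => by
    rw [cf_conjA, ha (ι g) (fun h' => hg (h g h')), map_zero]

end A1
end CMC
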