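import Mathlib
import Pool.Agent.Lib.MP_479d4c_gt.H85.L1
import Pool.Agent.Lib.MP_479d4c_gt.H85.L1Ops

/-!
# Concrete weights and operators for the cmc surface (double power series in `w, v`)

`Γ = ℤ × ℤ`, `(m, n)` stands for the monomial `w^m v^n`; at a point `z ∈ ℂ` it is evaluated as
`z^m (conj z)^n` (for `m, n ≥ 0`).
-/

open scoped ENNReal BigOperators ComplexConjugate
noncomputable section
namespace CMC

/-! ### Weights -/

section Weights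
variable {Γ Γ' : Type} [AddCommGroup Γ] [AddCommGroup Γ']

/-- product of weights -/
def Wt.mul (w w' : Wt Γ) : Wt Γ where
  toFun g := w g * w' g
  pos' g := mul_pos (w.pos g) (w'.pos g)
  zero' := by rw [w.zero, w'.zero, one_mul]
  add' g h := by
    calc w (g + h) * w' (g + h) ≤ (w g * w h) * (w' g * w' h) :=
          mul_le_mul (w.add_le g h) (w'.add_le g h) (w'.nonneg _)
            (mul_nonneg (w.nonneg _) (w.nonneg _))
      _ = w g * w' g * (w h * w' h) := by ring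

/-- pull-back of a weight -/
def Wt.comap (φ : Γ' →+ Γ) (w : Wt Γ) : Wt Γ' where
  toFun g := w (φ g)
  pos' g := w.pos _
  zero' := by rw [map_zero, w.zero]
  add' g h := by rw [map_add]; exact w.add_le _ _

@[simp] theorem Wt.mul_apply (w w' : Wt Γ) (g : Γ) : (Wt.mul w w') g = w g * w' g := rfl
@[simp] theorem Wt.comap_apply (φ : Γ' →+ Γ) (w : Wt Γ) (g : Γ') : (Wt.comap φ w) g = w (φ g) := rfl

end Weights

/-- radii `≥ 1` -/
abbrev Rad : Type := {r : ℝ // 1 ≤ r}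

theorem Rad.pos (ρ : Rad) : (0 : ℝ) < ρ.1 := lt_of_lt_of_le one_pos ρ.2

/-- the weight `ρ ^ |n|` on `ℤ` -/
def wk (ρ : Rad) : Wt ℤ where
  toFun n := (ρ : ℝ) ^ n.natAbs
  pos' n := pow_pos ρ.pos _
  zero' := by simp
  add' m n := by
    rw [← pow_add]
    exact pow_le_pow_right₀ ρ.2 (Int.natAbs_add_le m n)

/-- the weight `1 + |n|` on `ℤ` -/
def wl : Wt ℤ where
  toFun n := 1 + (n.natAbs : ℝ)
  pos' n := by positivity
  zero' := by simp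
  add' m n := by
    have h : ((m + n).natAbs : ℝ) ≤ (m.natAbs : ℝ) + n.natAbs := by
      exact_mod_cast Int.natAbs_add_le m n
    have h1 : (0 : ℝ) ≤ (m.natAbs : ℝ) := by positivity
    have h2 : (0 : ℝ) ≤ (n.natAbs : ℝ) := by positivity
    nlinarith [mul_nonneg h1 h2]

/-- the weight `(1 + |n|) ρ ^ |n|` on `ℤ` -/
def ws (ρ : Rad) : Wt ℤ := Wt.mul wl (wk ρ)

/-- the weight `ρ ^ (|m| + |n|)` on `ℤ × ℤ` -/
def w0 (ρ : Rad) : Wt (ℤ × ℤ) :=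
  Wt.mul (Wt.comap (AddMonoidHom.fst ℤ ℤ) (wk ρ)) (Wt.comap (AddMonoidHom.snd ℤ ℤ) (wk ρ))

/-- the weight `(1 + |m|) ρ ^ (|m| + |n|)` on `ℤ × ℤ` -/
def wb (ρ : Rad) : Wt (ℤ × ℤ) :=
  Wt.mul (Wt.comap (AddMonoidHom.fst ℤ ℤ) (ws ρ)) (Wt.comap (AddMonoidHom.snd ℤ ℤ) (wk ρ))

/-- the weight `(1 + |m|) (1 + |n|) ρ ^ (|m| + |n|)` on `ℤ × ℤ` -/
def wa (ρ : Rad) : Wt (ℤ × ℤ) :=
  Wt.mul (Wt.comap (AddMonoidHom.fst ℤ ℤ) (ws ρ)) (Wt.comap (AddMonoidHom.snd ℤ ℤ) (ws ρ))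

theorem wk_apply (ρ : Rad) (n : ℤ) : wk ρ n = (ρ : ℝ) ^ n.natAbs := rfl
theorem ws_apply (ρ : Rad) (n : ℤ) : ws ρ n = (1 + (n.natAbs : ℝ)) * (ρ : ℝ) ^ n.natAbs := rfl
theorem w0_apply (ρ : Rad) (g : ℤ × ℤ) :
    w0 ρ g = (ρ : ℝ) ^ g.1.natAbs * (ρ : ℝ) ^ g.2.natAbs := rfl
theorem wb_apply (ρ : Rad) (g : ℤ × ℤ) :
    wb ρ g = (1 + (g.1.natAbs : ℝ)) * (ρ : ℝ) ^ g.1.natAbs * (ρ : ℝ) ^ g.2.natAbs := rfl
theorem wa_apply (ρ : Rad) (g : ℤ × ℤ) :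
    wa ρ g = (1 + (g.1.natAbs : ℝ)) * (ρ : ℝ) ^ g.1.natAbs *
      ((1 + (g.2.natAbs : ℝ)) * (ρ : ℝ) ^ g.2.natAbs) := rfl

theorem one_le_wk (ρ : Rad) (n : ℤ) : 1 ≤ wk ρ n := one_le_pow₀ ρ.2

theorem wk_le_ws (ρ : Rad) (n : ℤ) : wk ρ n ≤ ws ρ n := by
  rw [ws_apply, wk_apply]
  have h : (0 : ℝ) ≤ (ρ : ℝ) ^ n.natAbs := pow_nonneg ρ.pos.le _
  nlinarith [mul_nonneg (Nat.cast_nonneg (α := ℝ) n.natAbs) h]

theorem w0_le_wb (ρ : Rad) (g : ℤ × ℤ) : w0 ρ g ≤ wb ρ g :=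
  mul_le_mul_of_nonneg_right (wk_le_ws ρ g.1) ((wk ρ).nonneg _)
theorem wb_le_wa (ρ : Rad) (g : ℤ × ℤ) : wb ρ g ≤ wa ρ g :=
  mul_le_mul_of_nonneg_left (wk_le_ws ρ g.2) ((ws ρ).nonneg _)
theorem w0_le_wa (ρ : Rad) (g : ℤ × ℤ) : w0 ρ g ≤ wa ρ g :=
  (w0_le_wb ρ g).trans (wb_le_wa ρ g)

/-! ### Operators given on monomials -/

namespace A1
section Op
variable {𝕜 : Type} [RCLike 𝕜] {Γ : Type} [AddCommGroup Γ] {w : Wt Γ}
variable {E : Type*} [NormedAddCommGroup E] [NormedSpace 𝕜 E] [CompleteSpace E]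

omit [CompleteSpace E] in
theorem summable_op (χ : Γ → E) {C : ℝ} (hχ : ∀ g, ‖χ g‖ ≤ C * w g) (a : A1 𝕜 w) :
    Summable fun g => ‖cf a g • χ g‖ := by
  refine Summable.of_nonneg_of_le (fun g => norm_nonneg _) (fun g => ?_) ((summable a).mul_left C)
  rw [norm_smul]
  calc ‖cf a g‖ * ‖χ g‖ ≤ ‖cf a g‖ * (C * w g) :=
        mul_le_mul_of_nonneg_left (hχ g) (norm_nonneg _)
    _ = C * (‖cf a g‖ * w g) := by ring

/-- The bounded linear map with `X^g ↦ χ g`, where `‖χ g‖ ≤ C * w g`. -/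
def op (χ : Γ → E) (C : ℝ) (hχ : ∀ g, ‖χ g‖ ≤ C * w g) : A1 𝕜 w →L[𝕜] E :=
  LinearMap.mkContinuous
    { toFun := fun a => ∑' g, cf a g • χ g
      map_add' := fun a b => by
        rw [← (summable_op χ hχ a).of_norm.tsum_add (summable_op χ hχ b).of_norm]
        refine tsum_congr fun g => ?_
        rw [cf_add, add_smul]
      map_smul' := fun c a => by
        rw [RingHom.id_apply, ← (summable_op χ hχ a).of_norm.tsum_const_smul]
        refine tsum_congr fun g => ?_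
        rw [cf_smul, mul_smul] } C (fun a => by
      rw [norm_eq, ← tsum_mul_left]
      refine (norm_tsum_le_tsum_norm (summable_op χ hχ a)).trans ?_
      refine Summable.tsum_le_tsum (fun g => ?_) (summable_op χ hχ a) ((summable a).mul_left C)
      rw [norm_smul]
      calc ‖cf a g‖ * ‖χ g‖ ≤ ‖cf a g‖ * (C * w g) :=
            mul_le_mul_of_nonneg_left (hχ g) (norm_nonneg _)
        _ = C * (‖cf a g‖ * w g) := by ring)

theorem op_apply (χ : Γ → E) (C : ℝ) (hχ : ∀ g, ‖χ g‖ ≤ C * w g) (a : A1 𝕜 w) :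
    op χ C hχ a = ∑' g, cf a g • χ g := rfl

theorem hasSum_op (χ : Γ → E) (C : ℝ) (hχ : ∀ g, ‖χ g‖ ≤ C * w g) (a : A1 𝕜 w) :
    HasSum (fun g => cf a g • χ g) (op χ C hχ a) := (summable_op χ hχ a).of_norm.hasSum

theorem norm_op_le (χ : Γ → E) (C : ℝ) (hχ : ∀ g, ‖χ g‖ ≤ C * w g) (a : A1 𝕜 w) :
    ‖op χ C hχ a‖ ≤ C * ‖a‖ := by
  rw [op_apply, norm_eq, ← tsum_mul_left]
  refine (norm_tsum_le_tsum_norm (summable_op χ hχ a)).trans ?_
  refine Summable.tsum_le_tsum (fun g => ?_) (summable_op χ hχ a) ((summable a).mul_left C)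
  rw [norm_smul]
  calc ‖cf a g‖ * ‖χ g‖ ≤ ‖cf a g‖ * (C * w g) :=
        mul_le_mul_of_nonneg_left (hχ g) (norm_nonneg _)
    _ = C * (‖cf a g‖ * w g) := by ring

@[simp] theorem op_mono (χ : Γ → E) (C : ℝ) (hχ : ∀ g, ‖χ g‖ ≤ C * w g) (g : Γ) :
    op χ C hχ (mono 𝕜 w g) = χ g := by
  rw [op_apply, tsum_eq_single g]
  · rw [cf_mono_self, one_smul]
  · intro h hh
    rw [cf_mono_ne hh, zero_smul]

end Op

section Mult
variable {𝕜 : Type} [RCLike 𝕜] {Γ Γ' : Type} [AddCommGroup Γ] [AddCommGroup Γ'] {w : Wt Γ}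
  {w' : Wt Γ'}

/-- A product identity for continuous linear maps may be checked on monomials. -/
theorem mul_ext {E : Type*} [NormedAddCommGroup E] [NormedSpace 𝕜 E]
    {T : A1 𝕜 w →L[𝕜] E} {B : A1 𝕜 w →L[𝕜] A1 𝕜 w →L[𝕜] E}
    (h : ∀ g g', T (mono 𝕜 w (g + g')) = B (mono 𝕜 w g) (mono 𝕜 w g')) (a b : A1 𝕜 w) :
    T (a * b) = B a b := by
  have h1 : ∀ g, (T.comp (ContinuousLinearMap.mul 𝕜 (A1 𝕜 w) (mono 𝕜 w g))) =
      B (mono 𝕜 w g) := fun g => clm_ext fun g' => by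
    rw [ContinuousLinearMap.comp_apply, ContinuousLinearMap.mul_apply', ← mono_add, h]
  have h2 : ((ContinuousLinearMap.compL 𝕜 (A1 𝕜 w) (A1 𝕜 w) E T).comp
      (ContinuousLinearMap.mul 𝕜 (A1 𝕜 w))) = B := clm_ext fun g => by
    rw [ContinuousLinearMap.comp_apply, ContinuousLinearMap.compL_apply, h1]
  have := congrArg (fun L => L a b) h2
  simpa using this

/-- push-forward along an additive homomorphism -/
def push (𝕜 : Type) [RCLike 𝕜] (w : Wt Γ) (w' : Wt Γ') (φ : Γ →+ Γ')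
    (h : ∀ g, w' (φ g) ≤ w g) : A1 𝕜 w →L[𝕜] A1 𝕜 w' :=
  op (fun g => mono 𝕜 w' (φ g)) 1 (fun g => by rw [norm_mono, one_mul]; exact h g)

@[simp] theorem push_mono (φ : Γ →+ Γ') (h : ∀ g, w' (φ g) ≤ w g) (g : Γ) :
    push 𝕜 w w' φ h (mono 𝕜 w g) = mono 𝕜 w' (φ g) := op_mono _ _ _ g

theorem push_mul (φ : Γ →+ Γ') (h : ∀ g, w' (φ g) ≤ w g) (a b : A1 𝕜 w) :
    push 𝕜 w w' φ h (a * b) = push 𝕜 w w' φ h a * push 𝕜 w w' φ h b := by
  refine mul_ext (T := push 𝕜 w w' φ h)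
    (B := ((ContinuousLinearMap.mul 𝕜 (A1 𝕜 w')).bilinearComp (push 𝕜 w w' φ h)
      (push 𝕜 w w' φ h))) (fun g g' => ?_) a b
  rw [ContinuousLinearMap.bilinearComp_apply, push_mono, push_mono, push_mono,
    ContinuousLinearMap.mul_apply', ← mono_add, map_add]

theorem push_one (φ : Γ →+ Γ') (h : ∀ g, w' (φ g) ≤ w g) :
    push 𝕜 w w' φ h 1 = 1 := by
  rw [← mono_zero, push_mono, map_zero, mono_zero]

/-- Coefficients of a push-forward along an equivalence. -/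
theorem cf_push_equiv (φ : Γ ≃+ Γ') (h : ∀ g, w' (φ g) ≤ w g) (a : A1 𝕜 w) (g : Γ') :
    cf (push 𝕜 w w' (φ : Γ →+ Γ') h a) g = cf a (φ.symm g) := by
  classical
  have h1 : cf (push 𝕜 w w' (φ : Γ →+ Γ') h a) g =
      ∑' k, cf (cf a k • mono 𝕜 w' (φ k)) g := by
    have := (cfL 𝕜 w' g).map_tsum
      (summable_op (fun g => mono 𝕜 w' ((φ : Γ →+ Γ') g)) (C := 1) (w := w)
        (fun g => by rw [norm_mono, one_mul]; exact h g) a).of_norm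
    exact this
  rw [h1, tsum_eq_single (φ.symm g)]
  · rw [cf_smul, AddEquiv.apply_symm_apply, cf_mono_self, mul_one]
  · intro k hk
    have : g ≠ φ k := by
      rintro rfl
      exact hk (by simp)
    rw [cf_smul, cf_mono_ne this, mul_zero]

end Mult
end A1

end CMC
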