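import Mathlib
import Pool.Agent.Lib.MP_479d4c_gt.H85.Defs

/-!
# The concrete operators: swap, integration in `v`, boundary map
-/

open scoped ENNReal BigOperators ComplexConjugate
noncomputable section
namespace CMC
open A1

/-- Series for `p1, p2` (weight `(1+m)(1+n) ρ^(m+n)`). -/
abbrev Aa (ρ : Rad) : Type := A1 ℝ (wa ρ)
/-- weight `(1+m) ρ^(m+n)` -/
abbrev Ab (ρ : Rad) : Type := A1 ℝ (wb ρ)
/-- weight `ρ^(m+n)` -/
abbrev A0 (ρ : Rad) : Type := A1 ℝ (w0 ρ)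
/-- one variable, weight `ρ^n` -/
abbrev Ak (ρ : Rad) : Type := A1 ℝ (wk ρ)
/-- one variable, weight `(1+n) ρ^n` -/
abbrev As (ρ : Rad) : Type := A1 ℝ (ws ρ)

/-- The quadrant `m, n ≥ 0`. -/
def Quad : Set (ℤ × ℤ) := {g | 0 ≤ g.1 ∧ 0 ≤ g.2}

theorem quad_add {g h : ℤ × ℤ} (hg : g ∈ Quad) (hh : h ∈ Quad) : g + h ∈ Quad :=
  ⟨add_nonneg hg.1 hh.1, add_nonneg hg.2 hh.2⟩

theorem mono_mul_mono {𝕜 : Type} [RCLike 𝕜] {Γ : Type} [AddCommGroup Γ] {w : Wt Γ} (g h : Γ) :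
    mono 𝕜 w g * mono 𝕜 w h = mono 𝕜 w (g + h) := (mono_add g h).symm

/-- the swap `(m,n) ↦ (n,m)` -/
def swp : ℤ × ℤ ≃+ ℤ × ℤ := AddEquiv.prodComm

@[simp] theorem swp_apply (g : ℤ × ℤ) : swp g = (g.2, g.1) := rfl
@[simp] theorem swp_symm_apply (g : ℤ × ℤ) : swp.symm g = (g.2, g.1) := rfl

theorem wa_swp (ρ : Rad) (g : ℤ × ℤ) : wa ρ (swp g) = wa ρ g := by
  rw [wa_apply, wa_apply, swp_apply]; ring
theorem w0_swp (ρ : Rad) (g : ℤ × ℤ) : w0 ρ (swp g) = w0 ρ g := by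
  rw [w0_apply, w0_apply, swp_apply]; ring

/-- the swap on `Aa` -/
def sig (ρ : Rad) : Aa ρ →L[ℝ] Aa ρ :=
  push ℝ (wa ρ) (wa ρ) (swp : ℤ × ℤ →+ ℤ × ℤ) (fun g => (wa_swp ρ g).le)
/-- the swap on `A0` -/
def sig0 (ρ : Rad) : A0 ρ →L[ℝ] A0 ρ :=
  push ℝ (w0 ρ) (w0 ρ) (swp : ℤ × ℤ →+ ℤ × ℤ) (fun g => (w0_swp ρ g).le)

@[simp] theorem sig_mono (ρ : Rad) (m n : ℤ) :
    sig ρ (mono ℝ (wa ρ) (m, n)) = mono ℝ (wa ρ) (n, m) := push_mono _ _ _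
@[simp] theorem sig0_mono (ρ : Rad) (m n : ℤ) :
    sig0 ρ (mono ℝ (w0 ρ) (m, n)) = mono ℝ (w0 ρ) (n, m) := push_mono _ _ _
theorem sig_mul (ρ : Rad) (a b : Aa ρ) : sig ρ (a * b) = sig ρ a * sig ρ b := push_mul _ _ a b
theorem sig0_mul (ρ : Rad) (a b : A0 ρ) : sig0 ρ (a * b) = sig0 ρ a * sig0 ρ b := push_mul _ _ a b
theorem sig_one (ρ : Rad) : sig ρ 1 = 1 := push_one _ _
theorem sig0_one (ρ : Rad) : sig0 ρ 1 = 1 := push_one _ _
@[simp] theorem cf_sig (ρ : Rad) (a : Aa ρ) (m n : ℤ) : cf (sig ρ a) (m, n) = cf a (n, m) :=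
  cf_push_equiv swp _ a (m, n)
@[simp] theorem cf_sig0 (ρ : Rad) (a : A0 ρ) (m n : ℤ) : cf (sig0 ρ a) (m, n) = cf a (n, m) :=
  cf_push_equiv swp _ a (m, n)
@[simp] theorem sig_sig (ρ : Rad) (a : Aa ρ) : sig ρ (sig ρ a) = a := by
  ext ⟨m, n⟩; simp
@[simp] theorem sig0_sig0 (ρ : Rad) (a : A0 ρ) : sig0 ρ (sig0 ρ a) = a := by
  ext ⟨m, n⟩; simp

/-! ### restriction maps -/

/-- `Aa → Ab` -/
def rab (ρ : Rad) : Aa ρ →L[ℝ] Ab ρ := res (wb_le_wa ρ)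
/-- `Aa → A0` -/
def ra0 (ρ : Rad) : Aa ρ →L[ℝ] A0 ρ := res (w0_le_wa ρ)

@[simp] theorem cf_rab (ρ : Rad) (a : Aa ρ) (g : ℤ × ℤ) : cf (rab ρ a) g = cf a g := cf_res _ _ _
@[simp] theorem cf_ra0 (ρ : Rad) (a : Aa ρ) (g : ℤ × ℤ) : cf (ra0 ρ a) g = cf a g := cf_res _ _ _
theorem rab_mul (ρ : Rad) (a b : Aa ρ) : rab ρ (a * b) = rab ρ a * rab ρ b := res_mul _ a b
theorem ra0_mul (ρ : Rad) (a b : Aa ρ) : ra0 ρ (a * b) = ra0 ρ a * ra0 ρ b := res_mul _ a b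
@[simp] theorem rab_mono (ρ : Rad) (g : ℤ × ℤ) : rab ρ (mono ℝ (wa ρ) g) = mono ℝ (wb ρ) g := by
  classical
  ext h; rw [cf_rab, cf_mono, cf_mono]
@[simp] theorem ra0_mono (ρ : Rad) (g : ℤ × ℤ) : ra0 ρ (mono ℝ (wa ρ) g) = mono ℝ (w0 ρ) g := by
  classical
  ext h; rw [cf_ra0, cf_mono, cf_mono]

/-! ### integration in `v` -/

theorem pow_abs_succ_le (ρ : Rad) (n : ℤ) :
    (ρ : ℝ) ^ (n + 1).natAbs ≤ ρ * (ρ : ℝ) ^ n.natAbs := by
  rw [← pow_succ']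
  refine pow_le_pow_right₀ ρ.2 ?_
  have := Int.natAbs_add_le n 1
  simpa using this

/-- `w^m v^n ↦ w^m v^(n+1)/(n+1)` for `m, n ≥ 0`, other monomials to `0`. -/
def Tv (ρ : Rad) : Ab ρ →L[ℝ] Aa ρ :=
  op (fun g => by classical exact
    if g ∈ Quad then (1 / ((g.2 : ℝ) + 1)) • mono ℝ (wa ρ) (g.1, g.2 + 1) else 0)
    (2 * ρ) (fun g => by
      classical
      split_ifs with hg
      · obtain ⟨h1, h2⟩ := hg
        rw [norm_smul, norm_mono, wa_apply, wb_apply]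
        have hn : (0 : ℝ) ≤ (g.2 : ℝ) := by exact_mod_cast h2
        have e1 : ((g.2 + 1).natAbs : ℝ) = (g.2 : ℝ) + 1 := by
          have : (((g.2 + 1).natAbs : ℤ) : ℝ) = ((g.2 + 1 : ℤ) : ℝ) := by
            rw [Int.natAbs_of_nonneg (by omega)]
          push_cast at this
          simpa using this
        have hp := pow_abs_succ_le ρ g.2
        have hρ : (0 : ℝ) < ρ := ρ.pos
        have hA : 0 ≤ (1 + (g.1.natAbs : ℝ)) * (ρ : ℝ) ^ g.1.natAbs := by positivity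
        have hB : 0 ≤ (ρ : ℝ) ^ g.2.natAbs := by positivity
        rw [Real.norm_of_nonneg (by positivity), e1]
        have h3 : (1 / ((g.2 : ℝ) + 1)) * (1 + ((g.2 : ℝ) + 1)) ≤ 2 := by
          rw [div_mul_eq_mul_div, one_mul, div_le_iff₀ (by linarith)]
          linarith
        calc 1 / ((g.2 : ℝ) + 1) * ((1 + (g.1.natAbs : ℝ)) * (ρ : ℝ) ^ g.1.natAbs *
              ((1 + ((g.2 : ℝ) + 1)) * (ρ : ℝ) ^ (g.2 + 1).natAbs))
            = ((1 + (g.1.natAbs : ℝ)) * (ρ : ℝ) ^ g.1.natAbs) *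
              ((1 / ((g.2 : ℝ) + 1) * (1 + ((g.2 : ℝ) + 1))) * (ρ : ℝ) ^ (g.2 + 1).natAbs) := by
              ring
          _ ≤ ((1 + (g.1.natAbs : ℝ)) * (ρ : ℝ) ^ g.1.natAbs) *
              (2 * (ρ * (ρ : ℝ) ^ g.2.natAbs)) := by
              refine mul_le_mul_of_nonneg_left ?_ hA
              exact mul_le_mul h3 hp (by positivity) (by norm_num)
          _ = _ := by ring
      · rw [norm_zero]
        exact mul_nonneg (mul_nonneg (by norm_num) ρ.pos.le) ((wb ρ).nonneg g))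

theorem Tv_mono (ρ : Rad) {m n : ℤ} (hm : 0 ≤ m) (hn : 0 ≤ n) :
    Tv ρ (mono ℝ (wb ρ) (m, n)) = (1 / ((n : ℝ) + 1)) • mono ℝ (wa ρ) (m, n + 1) := by
  classical
  unfold Tv
  rw [op_mono, if_pos ⟨hm, hn⟩]

theorem Tv_mono_not (ρ : Rad) {g : ℤ × ℤ} (h : g ∉ Quad) :
    Tv ρ (mono ℝ (wb ρ) g) = 0 := by
  classical
  unfold Tv
  rw [op_mono, if_neg h]

/-! ### one variable series -/

/-- `t^n ↦ v^n` for `n ≥ 0` (`k` as a series in `v`). -/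
def io (ρ : Rad) : Ak ρ →L[ℝ] Ab ρ :=
  op (fun n => if 0 ≤ n then mono ℝ (wb ρ) (0, n) else 0) 1 (fun n => by
    split_ifs with h
    · rw [norm_mono, wb_apply, wk_apply]; simp
    · rw [norm_zero, one_mul]; exact (wk ρ).nonneg n)

theorem io_mono (ρ : Rad) {n : ℤ} (h : 0 ≤ n) : io ρ (mono ℝ (wk ρ) n) = mono ℝ (wb ρ) (0, n) := by
  unfold io; rw [op_mono, if_pos h]
theorem io_mono_neg (ρ : Rad) {n : ℤ} (h : ¬ 0 ≤ n) : io ρ (mono ℝ (wk ρ) n) = 0 := by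
  unfold io; rw [op_mono, if_neg h]

/-- `t^n ↦ v^n` -/
def iv (ρ : Rad) : As ρ →L[ℝ] Aa ρ :=
  push ℝ (ws ρ) (wa ρ) (AddMonoidHom.inr ℤ ℤ) (fun n => by
    rw [wa_apply, ws_apply]; simp)
/-- `t^n ↦ w^n` -/
def iw (ρ : Rad) : As ρ →L[ℝ] Aa ρ :=
  push ℝ (ws ρ) (wa ρ) (AddMonoidHom.inl ℤ ℤ) (fun n => by
    rw [wa_apply, ws_apply]; simp)

@[simp] theorem iv_mono (ρ : Rad) (n : ℤ) : iv ρ (mono ℝ (ws ρ) n) = mono ℝ (wa ρ) (0, n) :=
  push_mono _ _ _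
@[simp] theorem iw_mono (ρ : Rad) (n : ℤ) : iw ρ (mono ℝ (ws ρ) n) = mono ℝ (wa ρ) (n, 0) :=
  push_mono _ _ _
theorem iv_mul (ρ : Rad) (a b : As ρ) : iv ρ (a * b) = iv ρ a * iv ρ b := push_mul _ _ a b
theorem iw_mul (ρ : Rad) (a b : As ρ) : iw ρ (a * b) = iw ρ a * iw ρ b := push_mul _ _ a b
theorem iv_one (ρ : Rad) : iv ρ 1 = 1 := push_one _ _
theorem iw_one (ρ : Rad) : iw ρ 1 = 1 := push_one _ _

theorem sig_iv (ρ : Rad) (a : As ρ) : sig ρ (iv ρ a) = iw ρ a := by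
  have : (sig ρ).comp (iv ρ) = iw ρ := clm_ext fun n => by
    rw [ContinuousLinearMap.comp_apply, iv_mono, sig_mono, iw_mono]
  exact congrArg (fun L => L a) this

/-- `t^n ↦ n t^(n-3)`, i.e. `G ↦ G'/t²`. -/
def dk (ρ : Rad) : As ρ →L[ℝ] Ak ρ :=
  op (fun n : ℤ => (n : ℝ) • mono ℝ (wk ρ) (n - 3)) ((ρ : ℝ) ^ 3) (fun n => by
    rw [norm_smul, norm_mono, wk_apply, ws_apply]
    have h1 : ‖(n : ℝ)‖ ≤ 1 + (n.natAbs : ℝ) := by
      have : ‖(n : ℝ)‖ = (n.natAbs : ℝ) := by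
        rw [Real.norm_eq_abs, Nat.cast_natAbs, Int.cast_abs]
      rw [this]; linarith
    have h2 : (ρ : ℝ) ^ (n - 3).natAbs ≤ (ρ : ℝ) ^ 3 * (ρ : ℝ) ^ n.natAbs := by
      rw [← pow_add]
      refine pow_le_pow_right₀ ρ.2 ?_
      have := Int.natAbs_sub_le n 3
      simpa [add_comm] using this
    calc ‖(n : ℝ)‖ * (ρ : ℝ) ^ (n - 3).natAbs
        ≤ (1 + (n.natAbs : ℝ)) * ((ρ : ℝ) ^ 3 * (ρ : ℝ) ^ n.natAbs) :=
          mul_le_mul h1 h2 (pow_nonneg ρ.pos.le _) (by positivity)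
      _ = _ := by ring)

@[simp] theorem dk_mono (ρ : Rad) (n : ℤ) :
    dk ρ (mono ℝ (ws ρ) n) = (n : ℝ) • mono ℝ (wk ρ) (n - 3) := op_mono _ _ _ n

/-! ### the boundary map -/

/-- `w^m v^n ↦ t^(m-n)`: restriction to `v = 1/w`, i.e. to the unit circle. -/
def bd (ρ : Rad) : Aa ρ →L[ℝ] As ρ :=
  push ℝ (wa ρ) (ws ρ) ((AddMonoidHom.fst ℤ ℤ) - (AddMonoidHom.snd ℤ ℤ)) (fun g => by
    rw [wa_apply, ws_apply]
    have e : ((AddMonoidHom.fst ℤ ℤ) - (AddMonoidHom.snd ℤ ℤ)) g = g.1 - g.2 := rfl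
    rw [e]
    have h0 := Int.natAbs_sub_le g.1 g.2
    have h1 : ((g.1 - g.2).natAbs : ℝ) ≤ (g.1.natAbs : ℝ) + g.2.natAbs := by exact_mod_cast h0
    have h2 : (ρ : ℝ) ^ (g.1 - g.2).natAbs ≤ (ρ : ℝ) ^ g.1.natAbs * (ρ : ℝ) ^ g.2.natAbs := by
      rw [← pow_add]
      exact pow_le_pow_right₀ ρ.2 h0
    have h3 : (0 : ℝ) ≤ (g.1.natAbs : ℝ) := by positivity
    have h4 : (0 : ℝ) ≤ (g.2.natAbs : ℝ) := by positivity
    calc (1 + ((g.1 - g.2).natAbs : ℝ)) * (ρ : ℝ) ^ (g.1 - g.2).natAbs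
        ≤ ((1 + (g.1.natAbs : ℝ)) * (1 + (g.2.natAbs : ℝ))) *
          ((ρ : ℝ) ^ g.1.natAbs * (ρ : ℝ) ^ g.2.natAbs) := by
          refine mul_le_mul ?_ h2 (pow_nonneg ρ.pos.le _) (by positivity)
          nlinarith [mul_nonneg h3 h4]
      _ = _ := by ring)

@[simp] theorem bd_mono (ρ : Rad) (m n : ℤ) :
    bd ρ (mono ℝ (wa ρ) (m, n)) = mono ℝ (ws ρ) (m - n) := push_mono _ _ _
theorem bd_mul (ρ : Rad) (a b : Aa ρ) : bd ρ (a * b) = bd ρ a * bd ρ b := push_mul _ _ a b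
theorem bd_one (ρ : Rad) : bd ρ 1 = 1 := push_one _ _

theorem bd_iw (ρ : Rad) (a : As ρ) : bd ρ (iw ρ a) = a := by
  have : (bd ρ).comp (iw ρ) = ContinuousLinearMap.id ℝ (As ρ) := clm_ext fun n => by
    rw [ContinuousLinearMap.comp_apply, iw_mono, bd_mono, sub_zero, ContinuousLinearMap.id_apply]
  exact congrArg (fun L => L a) this

/-- odd part: `t^n ↦ t^n (n > 0)`, `t^n ↦ - t^(-n) (n < 0)`, `1 ↦ 0`. -/
def oddP (ρ : Rad) : As ρ →L[ℝ] As ρ :=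
  op (fun n => if 0 < n then mono ℝ (ws ρ) n else if n < 0 then - mono ℝ (ws ρ) (-n) else 0) 1
    (fun n => by
      split_ifs with h1 h2
      · rw [norm_mono, one_mul]
      · rw [norm_neg, norm_mono, one_mul, ws_apply, ws_apply, Int.natAbs_neg]
      · rw [norm_zero, one_mul]; exact (ws ρ).nonneg n)

theorem oddP_mono_pos (ρ : Rad) {n : ℤ} (h : 0 < n) :
    oddP ρ (mono ℝ (ws ρ) n) = mono ℝ (ws ρ) n := by
  unfold oddP; rw [op_mono, if_pos h]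
theorem oddP_mono_neg (ρ : Rad) {n : ℤ} (h : n < 0) :
    oddP ρ (mono ℝ (ws ρ) n) = - mono ℝ (ws ρ) (-n) := by
  unfold oddP; rw [op_mono, if_neg (by omega), if_pos h]
theorem oddP_mono_zero (ρ : Rad) : oddP ρ (mono ℝ (ws ρ) 0) = 0 := by
  unfold oddP; rw [op_mono, if_neg (by omega), if_neg (by omega)]

/-- Coefficients of the odd part. -/
theorem cf_oddP (ρ : Rad) (a : As ρ) {n : ℤ} (hn : 0 < n) :
    cf (oddP ρ a) n = cf a n - cf a (-n) := by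
  have h : (cfL ℝ (ws ρ) n).comp (oddP ρ) = cfL ℝ (ws ρ) n - cfL ℝ (ws ρ) (-n) :=
    clm_ext fun k => by
      classical
      rw [ContinuousLinearMap.comp_apply, _root_.sub_apply, cfL_apply, cfL_apply,
        cfL_apply, cf_mono, cf_mono]
      rcases lt_trichotomy k 0 with hk | hk | hk
      · rw [oddP_mono_neg ρ hk, cf_neg, cf_mono]
        by_cases e : n = -k
        · rw [if_pos e, if_neg (by omega), if_pos (by omega)]; ring
        · rw [if_neg e, if_neg (by omega), if_neg (by omega)]; ring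
      · subst hk
        rw [oddP_mono_zero, cf_zero, if_neg (by omega), if_neg (by omega)]; ring
      · rw [oddP_mono_pos ρ hk, cf_mono]
        by_cases e : n = k
        · rw [if_pos e, if_neg (by omega)]; ring
        · rw [if_neg e, if_neg (by omega)]; ring
  exact congrArg (fun L => L a) h

theorem oddP_of_pos (ρ : Rad) {a : As ρ} (h : SuppIn {n : ℤ | 0 < n} a) : oddP ρ a = a := by
  have e : (oddP ρ).comp (proj ℝ (ws ρ) {n : ℤ | 0 < n}) = proj ℝ (ws ρ) {n : ℤ | 0 < n} :=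
    clm_ext fun k => by
      classical
      rw [ContinuousLinearMap.comp_apply]
      by_cases hk : k ∈ {n : ℤ | 0 < n}
      · rw [proj_eq_self_iff.2 (suppIn_mono hk), oddP_mono_pos ρ hk]
      · have : proj ℝ (ws ρ) {n : ℤ | 0 < n} (mono ℝ (ws ρ) k) = 0 := by
          ext j
          rw [cf_proj, cf_mono]
          by_cases hj : j ∈ {n : ℤ | 0 < n}
          · rw [if_pos hj, if_neg (fun e : j = k => hk (e ▸ hj)), cf_zero]
          · rw [if_neg hj, cf_zero]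
        rw [this, map_zero]
  have := congrArg (fun L => L a) e
  simp only [ContinuousLinearMap.comp_apply, proj_eq_self_iff.2 h] at this
  exact this

end CMC
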