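import Mathlib
import Pool.Agent.Lib.MP_479d4c_gt.H85.Conc

/-!
# Existence of the solution near `d = 0` (implicit function theorem)
-/

open scoped ENNReal BigOperators ComplexConjugate
noncomputable section
namespace CMC
open A1

variable (ρ : Rad) (b : ℝ)

/-- `∑ b^j t^(2j)`, the inverse of `1 - b t²`. -/
def geoF (b : ℝ) (n : ℤ) : ℝ := if 0 ≤ n ∧ n % 2 = 0 then b ^ (n / 2).toNat else 0

theorem summable_geo (hb : 0 ≤ b) (h : b * (ρ : ℝ) ^ 2 < 1) :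
    Summable fun n : ℤ => ‖geoF b n‖ * ws ρ n := by
  -- the nonzero terms are indexed by `j : ℕ`, `n = 2 j`
  have hinj : Function.Injective (fun j : ℕ => (2 * (j : ℤ))) := fun i j hij => by
    have : (2 * (i : ℤ)) = 2 * j := hij
    omega
  have hs : Summable fun j : ℕ => ‖geoF b (2 * (j : ℤ))‖ * ws ρ (2 * (j : ℤ)) := by
    have e : ∀ j : ℕ, ‖geoF b (2 * (j : ℤ))‖ * ws ρ (2 * (j : ℤ)) =
        (b * (ρ : ℝ) ^ 2) ^ j + 2 * ((j : ℝ) ^ 1 * (b * (ρ : ℝ) ^ 2) ^ j) := by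
      intro j
      have h1 : geoF b (2 * (j : ℤ)) = b ^ j := by
        unfold geoF
        rw [if_pos ⟨by positivity, by omega⟩]
        have : (2 * (j : ℤ) / 2) = j := by omega
        rw [this, Int.toNat_natCast]
      have h2 : (2 * (j : ℤ)).natAbs = 2 * j := by omega
      rw [h1, ws_apply, h2, Real.norm_of_nonneg (pow_nonneg hb j), mul_pow, ← pow_mul]
      push_cast
      ring
    refine Summable.congr ?_ (fun j => (e j).symm)
    have hr : ‖b * (ρ : ℝ) ^ 2‖ < 1 := by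
      rw [Real.norm_of_nonneg (by positivity)]; exact h
    have hr1 : (b * (ρ : ℝ) ^ 2) < 1 := h
    have hr0 : 0 ≤ (b * (ρ : ℝ) ^ 2) := by positivity
    refine (summable_geometric_of_lt_one hr0 hr1).add (Summable.mul_left 2 ?_)
    exact summable_pow_mul_geometric_of_norm_lt_one 1 hr
  have := (hinj.summable_iff (f := fun n : ℤ => ‖geoF b n‖ * ws ρ n) (fun n hn => by
    have : geoF b n = 0 := by
      unfold geoF
      rw [if_neg]
      rintro ⟨h0, h1⟩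
      refine hn ⟨(n / 2).toNat, ?_⟩
      show 2 * (((n / 2).toNat : ℕ) : ℤ) = n
      rw [Int.toNat_of_nonneg (by omega)]
      omega
    rw [this, norm_zero, zero_mul])).1 hs
  exact this

/-- data of the problem -/
structure Dat where
  /-- radius -/
  ρ : Rad
  /-- shape parameter -/
  b : ℝ
  b0 : 0 ≤ b
  hb : b * (ρ : ℝ) ^ 2 < 1

variable (D : Dat)

/-- `1/(1 - b t²)` -/
def geo : As D.ρ := A1.mk (geoF D.b) (summable_geo D.ρ D.b D.b0 D.hb)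

@[simp] theorem cf_geo (n : ℤ) : cf (geo D) n = geoF D.b n := cf_mk _ _ n

/-- monomials of `As` -/
abbrev ts (ρ : Rad) (n : ℤ) : As ρ := mono ℝ (ws ρ) n
/-- monomials of `Aa` -/
abbrev ma (ρ : Rad) (m n : ℤ) : Aa ρ := mono ℝ (wa ρ) (m, n)

theorem ts_mul (ρ : Rad) (m n : ℤ) : ts ρ m * ts ρ n = ts ρ (m + n) := mono_mul_mono _ _
theorem ma_mul (ρ : Rad) (m n m' n' : ℤ) : ma ρ m n * ma ρ m' n' = ma ρ (m + m') (n + n') :=
  mono_mul_mono _ _
theorem ts_zero (ρ : Rad) : ts ρ 0 = 1 := rfl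
theorem ma_zero (ρ : Rad) : ma ρ 0 0 = 1 := rfl

theorem geo_mul : (1 - D.b • ts D.ρ 2) * geo D = 1 := by
  classical
  rw [sub_mul, one_mul, smul_mul_assoc]
  ext n
  rw [cf_sub, cf_smul, cf_mono_mul, cf_geo, cf_geo, one_def, cf_mono]
  unfold geoF
  by_cases h0 : n = 0
  · subst h0
    rw [if_pos ⟨le_refl _, by omega⟩, if_neg (by omega), if_pos rfl]
    simp
  · rw [if_neg h0]
    by_cases h1 : 0 ≤ n - 2 ∧ (n - 2) % 2 = 0
    · rw [if_pos h1, if_pos ⟨by omega, by omega⟩]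
      have e : (n / 2).toNat = ((n - 2) / 2).toNat + 1 := by omega
      rw [e, pow_succ]; ring
    · rw [if_neg h1, if_neg (by omega)]; ring

theorem suppIn_geo : SuppIn {n : ℤ | 0 ≤ n} (geo D) := fun n hn => by
  rw [cf_geo]
  unfold geoF
  rw [if_neg]
  rintro ⟨h, -⟩
  exact hn h

/-- `L f = odd part of (b t² - 1) t f(t, 1/t)`. -/
def LL : Aa D.ρ →L[ℝ] As D.ρ :=
  (oddP D.ρ).comp ((ContinuousLinearMap.mul ℝ (As D.ρ) ((D.b • ts D.ρ 2 - 1) * ts D.ρ 1)).comp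
    (bd D.ρ))

theorem LL_apply (f : Aa D.ρ) :
    LL D f = oddP D.ρ ((D.b • ts D.ρ 2 - 1) * ts D.ρ 1 * bd D.ρ f) := rfl

/-- `K ↦ g ↦ T(K(v) g)` -/
def TT (k : Ak D.ρ) (g : Aa D.ρ) : Aa D.ρ := Tv D.ρ (io D.ρ k * rab D.ρ g)

/-- `G₀ = 2b t³/(1 - b t²)`. -/
def G0 : As D.ρ := (2 * D.b) • (ts D.ρ 3 * geo D)
/-- `k₀ = G₀'/t²` -/
def k0 : Ak D.ρ := dk D.ρ (G0 D)
/-- `p₂⁰ = 1 + b w² + w G₀(v)` -/
def p20 : Aa D.ρ := 1 + D.b • ma D.ρ 2 0 + ma D.ρ 1 0 * iv D.ρ (G0 D)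
/-- `p₁⁰ = w` -/
def p10 : Aa D.ρ := ma D.ρ 1 0

theorem suppIn_G0 : SuppIn {n : ℤ | 3 ≤ n} (G0 D) :=
  SuppIn.smul _ (SuppIn.mul (S := {3}) (T := {n : ℤ | 0 ≤ n})
    (fun g hg h hh => by
      have h1 : g = 3 := hg
      have h2 : 0 ≤ h := hh
      show (3 : ℤ) ≤ g + h
      omega)
    (suppIn_mono rfl) (suppIn_geo D))

/-- the basic integration identity -/
theorem TT_dk {G : As D.ρ} (hG : SuppIn {n : ℤ | 3 ≤ n} G) :
    TT D (dk D.ρ G) (ma D.ρ 1 2) = ma D.ρ 1 0 * iv D.ρ G := by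
  -- as an identity of continuous linear maps composed with the projection
  have key : ((Tv D.ρ).comp (((ContinuousLinearMap.mul ℝ (Ab D.ρ)).flip
      (rab D.ρ (ma D.ρ 1 2))).comp ((io D.ρ).comp (dk D.ρ)))).comp
        (proj ℝ (ws D.ρ) {n : ℤ | 3 ≤ n}) =
      ((ContinuousLinearMap.mul ℝ (Aa D.ρ) (ma D.ρ 1 0)).comp (iv D.ρ)).comp
        (proj ℝ (ws D.ρ) {n : ℤ | 3 ≤ n}) := clm_ext fun n => by
    classical
    rw [ContinuousLinearMap.comp_apply, ContinuousLinearMap.comp_apply (g := (ContinuousLinearMap.mul ℝ (Aa D.ρ) (ma D.ρ 1 0)).comp (iv D.ρ))]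
    by_cases hn : n ∈ {n : ℤ | 3 ≤ n}
    · rw [proj_eq_self_iff.2 (suppIn_mono hn)]
      have h3 : (3 : ℤ) ≤ n := hn
      simp only [ContinuousLinearMap.comp_apply, dk_mono, map_smul, iv_mono,
        ContinuousLinearMap.flip_apply, ContinuousLinearMap.mul_apply']
      rw [io_mono D.ρ (by omega : 0 ≤ n - 3), rab_mono, mono_mul_mono,
        Prod.mk_add_mk, Tv_mono D.ρ (by omega) (by omega), smul_smul, ma_mul]
      have hn0 : (n : ℝ) ≠ 0 := by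
        have : (n : ℤ) ≠ 0 := by omega
        exact_mod_cast this
      have e : (n : ℝ) * (1 / (((n - 3 + 2 : ℤ) : ℝ) + 1)) = 1 := by
        push_cast
        have : (n : ℝ) - 3 + 2 + 1 = n := by ring
        rw [this]; field_simp
      rw [e, one_smul]
      congr 1
      ext
      · simp
      · simp; ring
    · have : proj ℝ (ws D.ρ) {n : ℤ | 3 ≤ n} (mono ℝ (ws D.ρ) n) = 0 := by
        ext j
        rw [cf_proj, cf_mono]
        by_cases hj : j ∈ {n : ℤ | 3 ≤ n}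
        · rw [if_pos hj, if_neg (fun e : j = n => hn (e ▸ hj)), cf_zero]
        · rw [if_neg hj, cf_zero]
      rw [this, map_zero, map_zero]
  have := congrArg (fun L => L G) key
  simp only [ContinuousLinearMap.comp_apply, proj_eq_self_iff.2 hG] at this
  exact this

/-- the boundary identity for the `G`-term -/
theorem LL_G {G : As D.ρ} (hG : SuppIn {n : ℤ | 3 ≤ n} G) :
    LL D (ma D.ρ 0 1 * sig D.ρ (ma D.ρ 1 0 * iv D.ρ G)) =
      (D.b • ts D.ρ 2 - 1) * (ts D.ρ (-1) * G) := by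
  rw [LL_apply, sig_mul, sig_iv, sig_mono, bd_mul, bd_mul, bd_iw, bd_mono]
  have e : (D.b • ts D.ρ 2 - 1) * ts D.ρ 1 * (mono ℝ (ws D.ρ) (0 - 1) * (mono ℝ (ws D.ρ) (0 - 1) * G))
      = (D.b • ts D.ρ 2 - 1) * (ts D.ρ (-1) * G) := by
    have h1 : ts D.ρ 1 * (mono ℝ (ws D.ρ) (0 - 1) * (mono ℝ (ws D.ρ) (0 - 1) * G)) =
        ts D.ρ (-1) * G := by
      rw [← mul_assoc, ← mul_assoc, ts_mul, ts_mul]
      norm_num
    rw [mul_assoc, h1]
  rw [e]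
  refine oddP_of_pos D.ρ ?_
  refine SuppIn.mul (S := {n : ℤ | 0 ≤ n}) (T := {n : ℤ | 2 ≤ n}) (fun g hg h hh => ?_) ?_ ?_
  · have h1 : 0 ≤ g := hg
    have h2 : 2 ≤ h := hh
    show 0 < g + h
    omega
  · exact (SuppIn.smul _ (suppIn_mono (by norm_num))).sub (SuppIn.one (show (0 : ℤ) ∈ {n : ℤ | 0 ≤ n} from le_refl (0 : ℤ)))
  · refine SuppIn.mul (S := {-1}) (T := {n : ℤ | 3 ≤ n}) (fun g hg h hh => ?_) (suppIn_mono rfl) hG
    have h1 : g = -1 := hg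
    have h2 : 3 ≤ h := hh
    show 2 ≤ g + h
    omega

theorem LL_tau : LL D (ma D.ρ 0 1 * sig D.ρ (ma D.ρ 1 0)) = (1 + D.b) • ts D.ρ 1 := by
  rw [LL_apply, sig_mono, ma_mul, bd_mono]
  have e : (D.b • ts D.ρ 2 - 1) * ts D.ρ 1 * mono ℝ (ws D.ρ) (0 + 0 - (1 + 1)) =
      D.b • ts D.ρ 1 - ts D.ρ (-1) := by
    rw [mul_assoc, ts_mul, sub_mul, smul_mul_assoc, ts_mul, one_mul]
    norm_num
  rw [e, map_sub, map_smul, oddP_mono_pos D.ρ (by norm_num), oddP_mono_neg D.ρ (by norm_num)]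
  rw [add_smul, one_smul]
  simp only [neg_neg, sub_neg_eq_add]
  rw [add_comm]

/-! ### The map `F` -/

/-- The Banach space of unknowns `(p₁, p₂, k, τ, r)`. -/
abbrev UU : Type := Aa D.ρ × Aa D.ρ × Ak D.ρ × ℝ × As D.ρ
/-- The target. -/
abbrev VV : Type := Aa D.ρ × Aa D.ρ × As D.ρ

/-- `s = p₁ q₁ + d p₂ q₂` -/
def ss (d : ℝ) (p1 p2 : Aa D.ρ) : Aa D.ρ :=
  p1 * sig D.ρ p1 + d • (p2 * sig D.ρ p2)

/-- the nonpositive projection -/
def Pn : As D.ρ →L[ℝ] As D.ρ := proj ℝ (ws D.ρ) {n : ℤ | n ≤ 0}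

/-- the three equations -/
def FF (x : ℝ × UU D) : ℝ × VV D :=
  (x.1,
   x.2.1 - ma D.ρ 1 0 + x.1 • TT D x.2.2.2.1 (ss D x.1 x.2.1 x.2.2.1 * sig D.ρ x.2.2.1),
   x.2.2.1 - (1 + x.2.2.2.2.1 • ma D.ρ 1 0 + D.b • ma D.ρ 2 0) -
     TT D x.2.2.2.1 (ss D x.1 x.2.1 x.2.2.1 * sig D.ρ x.2.1),
   LL D (sig D.ρ x.2.1 * sig D.ρ x.2.2.1) + Pn D x.2.2.2.2.2)

/-- the base point -/
def x0 : ℝ × UU D := (0, p10 D, p20 D, k0 D, 0, 0)

theorem ma_comm_iv (G : As D.ρ) : ma D.ρ 1 0 * iv D.ρ G = iv D.ρ G * ma D.ρ 1 0 := mul_comm _ _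

theorem LL_base : LL D (sig D.ρ (p10 D) * sig D.ρ (p20 D)) = 0 := by
  have h1 : sig D.ρ (p10 D) = ma D.ρ 0 1 := sig_mono _ _ _
  rw [h1]
  unfold p20
  have h2 : sig D.ρ (1 + D.b • ma D.ρ 2 0 + ma D.ρ 1 0 * iv D.ρ (G0 D)) =
      1 + D.b • ma D.ρ 0 2 + sig D.ρ (ma D.ρ 1 0 * iv D.ρ (G0 D)) := by
    rw [map_add, map_add, sig_one, map_smul, sig_mono]
  rw [h2, mul_add, map_add, LL_G D (suppIn_G0 D)]
  have h3 : (D.b • ts D.ρ 2 - 1) * (ts D.ρ (-1) * G0 D) = -((2 * D.b) • ts D.ρ 2) := by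
    unfold G0
    have e : (D.b • ts D.ρ 2 - 1) = -(1 - D.b • ts D.ρ 2) := by ring
    calc (D.b • ts D.ρ 2 - 1) * (ts D.ρ (-1) * (2 * D.b) • (ts D.ρ 3 * geo D))
        = -((2 * D.b) • ((ts D.ρ (-1) * ts D.ρ 3) * ((1 - D.b • ts D.ρ 2) * geo D))) := by
          rw [e, mul_smul_comm, mul_smul_comm, neg_mul, smul_neg]
          congr 2
          ring
      _ = _ := by
          rw [geo_mul, mul_one, ts_mul]
          norm_num
  rw [h3, LL_apply, bd_mul, map_add, bd_one, map_smul, bd_mono, bd_mono]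
  have e : (D.b • ts D.ρ 2 - 1) * ts D.ρ 1 *
      (mono ℝ (ws D.ρ) (0 - 1) * (1 + D.b • mono ℝ (ws D.ρ) (0 - 2))) =
      D.b • ts D.ρ 2 + (D.b ^ 2 - 1) • ts D.ρ 0 - D.b • ts D.ρ (-2) := by
    have h4 : ts D.ρ 1 * mono ℝ (ws D.ρ) (0 - 1) = 1 := by
      have := ts_mul D.ρ 1 (0 - 1)
      norm_num at this
      rw [show (0 - 1 : ℤ) = -1 by norm_num]
      exact this
    have h5 : (0 - 2 : ℤ) = -2 := by norm_num
    rw [mul_assoc, ← mul_assoc (ts D.ρ 1), h4, one_mul, h5, sub_mul, mul_add, mul_add, mul_one,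
      mul_one, one_mul, smul_mul_smul_comm, mono_mul_mono]
    rw [ts_zero]
    have h6 : mono ℝ (ws D.ρ) (2 + -2 : ℤ) = 1 := by
      norm_num
    rw [h6, sub_smul, one_smul, pow_two]
    abel
  rw [e, map_sub, map_add, map_smul, map_smul, map_smul, oddP_mono_pos D.ρ (by norm_num),
    oddP_mono_zero, oddP_mono_neg D.ρ (by norm_num)]
  simp only [neg_neg, smul_zero, add_zero, smul_neg, sub_neg_eq_add]
  rw [two_mul, add_smul]
  abel

theorem ss_base : ss D 0 (p10 D) (p20 D) = ma D.ρ 1 1 := by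
  unfold ss p10
  rw [zero_smul, add_zero, sig_mono, ma_mul]
  norm_num

theorem FF_base : FF D (x0 D) = 0 := by
  have e1 : ss D 0 (p10 D) (p20 D) * sig D.ρ (p10 D) = ma D.ρ 1 2 := by
    rw [ss_base]
    unfold p10
    rw [sig_mono, ma_mul]
    norm_num
  have h2 : TT D (k0 D) (ss D 0 (p10 D) (p20 D) * sig D.ρ (p10 D)) =
      ma D.ρ 1 0 * iv D.ρ (G0 D) := by
    rw [e1]; exact TT_dk D (suppIn_G0 D)
  unfold FF x0
  simp only [zero_smul, add_zero, map_zero]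
  rw [h2, LL_base]
  unfold p10 p20
  simp only [sub_self, add_sub_cancel_left, Prod.mk_zero_zero]

/-! ### Differentiability and the derivative -/

theorem contDiff_TT {E : Type*} [NormedAddCommGroup E] [NormedSpace ℝ E] {k : E → Ak D.ρ}
    {g : E → Aa D.ρ} {n : WithTop ℕ∞} (hk : ContDiff ℝ n k) (hg : ContDiff ℝ n g) :
    ContDiff ℝ n (fun x => TT D (k x) (g x)) :=
  (Tv D.ρ).contDiff.comp (((io D.ρ).contDiff.comp hk).mul ((rab D.ρ).contDiff.comp hg))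

theorem contDiff_FF : ContDiff ℝ 1 (FF D) := by
  have h1 : ContDiff ℝ 1 (fun x : ℝ × UU D => x.1) := contDiff_fst
  have h2 : ContDiff ℝ 1 (fun x : ℝ × UU D => x.2.1) := contDiff_fst.comp contDiff_snd
  have h3 : ContDiff ℝ 1 (fun x : ℝ × UU D => x.2.2.1) :=
    contDiff_fst.comp (contDiff_snd.comp contDiff_snd)
  have h4 : ContDiff ℝ 1 (fun x : ℝ × UU D => x.2.2.2.1) :=
    contDiff_fst.comp (contDiff_snd.comp (contDiff_snd.comp contDiff_snd))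
  have h5 : ContDiff ℝ 1 (fun x : ℝ × UU D => x.2.2.2.2.1) :=
    contDiff_fst.comp (contDiff_snd.comp (contDiff_snd.comp (contDiff_snd.comp contDiff_snd)))
  have h6 : ContDiff ℝ 1 (fun x : ℝ × UU D => x.2.2.2.2.2) :=
    contDiff_snd.comp (contDiff_snd.comp (contDiff_snd.comp (contDiff_snd.comp contDiff_snd)))
  have q1 : ContDiff ℝ 1 (fun x : ℝ × UU D => sig D.ρ x.2.1) := (sig D.ρ).contDiff.comp h2
  have q2 : ContDiff ℝ 1 (fun x : ℝ × UU D => sig D.ρ x.2.2.1) := (sig D.ρ).contDiff.comp h3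
  have hs : ContDiff ℝ 1 (fun x : ℝ × UU D => ss D x.1 x.2.1 x.2.2.1) :=
    (h2.mul q1).add (h1.smul (h3.mul q2))
  refine h1.prodMk (ContDiff.prodMk ?_ (ContDiff.prodMk ?_ ?_))
  · exact (h2.sub contDiff_const).add (h1.smul (contDiff_TT D h4 (hs.mul q2)))
  · exact (h3.sub ((contDiff_const.add (h5.smul contDiff_const)).add contDiff_const)).sub
      (contDiff_TT D h4 (hs.mul q1))
  · exact ((LL D).contDiff.comp (q1.mul q2)).add ((Pn D).contDiff.comp h6)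

theorem hasDerivAt_clm {E F : Type*} [NormedAddCommGroup E] [NormedSpace ℝ E]
    [NormedAddCommGroup F] [NormedSpace ℝ F] (L : E →L[ℝ] F) {f : ℝ → E} {f' : E} {t : ℝ}
    (h : HasDerivAt f f' t) : HasDerivAt (fun s => L (f s)) (L f') t :=
  L.hasFDerivAt.comp_hasDerivAt t h

theorem hasDerivAt_TT {k : ℝ → Ak D.ρ} {g : ℝ → Aa D.ρ} {k' : Ak D.ρ} {g' : Aa D.ρ} {t : ℝ}
    (hk : HasDerivAt k k' t) (hg : HasDerivAt g g' t) :
    HasDerivAt (fun s => TT D (k s) (g s)) (TT D k' (g t) + TT D (k t) g') t := by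
  have := hasDerivAt_clm (Tv D.ρ) ((hasDerivAt_clm (io D.ρ) hk).mul (hasDerivAt_clm (rab D.ρ) hg))
  rw [map_add] at this
  exact this

theorem hasDerivAt_line {E : Type*} [NormedAddCommGroup E] [NormedSpace ℝ E] (a v : E) :
    HasDerivAt (fun t : ℝ => a + t • v) v 0 := by
  have := ((hasDerivAt_id (0 : ℝ)).smul_const v).const_add a
  simpa using this

/-- derivative of `s` at the base point in the direction `v` -/
def ds (v : ℝ × UU D) : Aa D.ρ :=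
  v.2.1 * sig D.ρ (p10 D) + p10 D * sig D.ρ v.2.1 + v.1 • (p20 D * sig D.ρ (p20 D))

/-- derivative of `F` at the base point -/
def DF (v : ℝ × UU D) : ℝ × VV D :=
  (v.1,
   v.2.1 + v.1 • TT D (k0 D) (ma D.ρ 1 1 * sig D.ρ (p20 D)),
   v.2.2.1 - v.2.2.2.2.1 • ma D.ρ 1 0 -
     (TT D v.2.2.2.1 (ma D.ρ 1 2) +
      TT D (k0 D) (ds D v * sig D.ρ (p10 D) + ma D.ρ 1 1 * sig D.ρ v.2.1)),
   LL D (sig D.ρ v.2.1 * sig D.ρ (p20 D) + sig D.ρ (p10 D) * sig D.ρ v.2.2.1) + Pn D v.2.2.2.2.2)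

theorem hasDerivAt_FF (v : ℝ × UU D) :
    HasDerivAt (fun t : ℝ => FF D (x0 D + t • v)) (DF D v) 0 := by
  obtain ⟨δ, z1, z2, κ, τ, r⟩ := v
  have hd : HasDerivAt (fun t : ℝ => (0 : ℝ) + t • δ) δ 0 := hasDerivAt_line 0 δ
  have h1 : HasDerivAt (fun t : ℝ => p10 D + t • z1) z1 0 := hasDerivAt_line _ _
  have h2 : HasDerivAt (fun t : ℝ => p20 D + t • z2) z2 0 := hasDerivAt_line _ _
  have hk : HasDerivAt (fun t : ℝ => k0 D + t • κ) κ 0 := hasDerivAt_line _ _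
  have ht : HasDerivAt (fun t : ℝ => (0 : ℝ) + t • τ) τ 0 := hasDerivAt_line _ _
  have hr : HasDerivAt (fun t : ℝ => (0 : As D.ρ) + t • r) r 0 := hasDerivAt_line _ _
  have hq1 := hasDerivAt_clm (sig D.ρ) h1
  have hq2 := hasDerivAt_clm (sig D.ρ) h2
  have hs : HasDerivAt (fun t : ℝ => ss D (0 + t • δ) (p10 D + t • z1) (p20 D + t • z2))
      (ds D (δ, z1, z2, κ, τ, r)) 0 := by
    have := (h1.mul hq1).add (hd.smul (h2.mul hq2))
    refine this.congr_deriv ?_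
    simp only [Pi.mul_apply, zero_smul, add_zero, zero_add, ds]
  have e0 : ss D (0 + (0 : ℝ) • δ) (p10 D + (0 : ℝ) • z1) (p20 D + (0 : ℝ) • z2) = ma D.ρ 1 1 := by
    rw [zero_smul, zero_smul, zero_smul, add_zero, add_zero, add_zero, ss_base]
  have hm2 := hasDerivAt_TT D hk (hs.mul hq2)
  have hm1 := hasDerivAt_TT D hk (hs.mul hq1)
  have c1 := (h1.sub_const (ma D.ρ 1 0)).add (hd.smul hm2)
  have c2 := (h2.sub (((ht.smul_const (ma D.ρ 1 0)).const_add 1).add_const (D.b • ma D.ρ 2 0))).sub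
    hm1
  have c3 := (hasDerivAt_clm (LL D) (hq1.mul hq2)).add (hasDerivAt_clm (Pn D) hr)
  have key := hd.prodMk (c1.prodMk (c2.prodMk c3))
  refine key.congr_deriv ?_
  simp only [Pi.mul_apply, zero_smul, add_zero, zero_add, ss_base, DF]
  have e1 : ma D.ρ 1 1 * sig D.ρ (p10 D) = ma D.ρ 1 2 := by
    unfold p10
    rw [sig_mono, ma_mul]
    norm_num
  rw [e1]

theorem hasStrictFDerivAt_FF : HasStrictFDerivAt (FF D) (fderiv ℝ (FF D) (x0 D)) (x0 D) :=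
  (contDiff_FF D).contDiffAt.hasStrictFDerivAt (by norm_num)

theorem fderiv_FF (v : ℝ × UU D) : fderiv ℝ (FF D) (x0 D) v = DF D v := by
  have h0 : HasDerivAt (fun t : ℝ => x0 D + t • v) v 0 := hasDerivAt_line _ _
  have h1 : HasFDerivAt (FF D) (fderiv ℝ (FF D) (x0 D)) (x0 D + (0 : ℝ) • v) := by
    rw [zero_smul, add_zero]
    exact (hasStrictFDerivAt_FF D).hasFDerivAt
  have h2 := h1.comp_hasDerivAt (0 : ℝ) h0
  exact h2.unique (hasDerivAt_FF D v)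

/-! ### Surjectivity -/

theorem decomp_As (r : As D.ρ) :
    r = Pn D r + cf r 1 • ts D.ρ 1 + proj ℝ (ws D.ρ) {n : ℤ | 2 ≤ n} r := by
  classical
  ext n
  rw [cf_add, cf_add, cf_smul, cf_mono, Pn, cf_proj, cf_proj]
  rcases lt_trichotomy n 1 with h | h | h
  · rw [if_pos (show n ∈ {n : ℤ | n ≤ 0} by show n ≤ 0; omega), if_neg (by omega),
      if_neg (show n ∉ {n : ℤ | 2 ≤ n} by show ¬ (2 ≤ n); omega)]
    ring
  · subst h
    rw [if_neg (show (1 : ℤ) ∉ {n : ℤ | n ≤ 0} by show ¬ ((1 : ℤ) ≤ 0); omega), if_pos rfl,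
      if_neg (show (1 : ℤ) ∉ {n : ℤ | 2 ≤ n} by show ¬ (2 ≤ (1 : ℤ)); omega)]
    ring
  · rw [if_neg (show n ∉ {n : ℤ | n ≤ 0} by show ¬ (n ≤ 0); omega), if_neg (by omega),
      if_pos (show n ∈ {n : ℤ | 2 ≤ n} by show 2 ≤ n; omega)]
    ring

theorem DF_surj (y : ℝ × VV D) : ∃ v, DF D v = y := by
  obtain ⟨e0, r1, r2, r3⟩ := y
  -- first component
  set z1 : Aa D.ρ := r1 - e0 • TT D (k0 D) (ma D.ρ 1 1 * sig D.ρ (p20 D)) with hz1
  set s' : Aa D.ρ := z1 * sig D.ρ (p10 D) + p10 D * sig D.ρ z1 + e0 • (p20 D * sig D.ρ (p20 D))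
    with hs'
  set A : Aa D.ρ := r2 + TT D (k0 D) (s' * sig D.ρ (p10 D) + ma D.ρ 1 1 * sig D.ρ z1) with hA
  set r3' : As D.ρ := r3 - LL D (sig D.ρ z1 * sig D.ρ (p20 D) + sig D.ρ (p10 D) * sig D.ρ A)
    with hr3'
  set G : As D.ρ := -(ts D.ρ 1 * (geo D * proj ℝ (ws D.ρ) {n : ℤ | 2 ≤ n} r3')) with hG
  have hGs : SuppIn {n : ℤ | 3 ≤ n} G := by
    refine SuppIn.neg (SuppIn.mul (S := {1}) (T := {n : ℤ | 2 ≤ n}) (fun g hg h hh => ?_)
      (suppIn_mono rfl) (SuppIn.mul (S := {n : ℤ | 0 ≤ n}) (T := {n : ℤ | 2 ≤ n})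
        (fun g hg h hh => ?_) (suppIn_geo D) (suppIn_proj _ _)))
    · have h1 : g = 1 := hg
      have h2 : 2 ≤ h := hh
      show 3 ≤ g + h
      omega
    · have h1 : 0 ≤ g := hg
      have h2 : 2 ≤ h := hh
      show 2 ≤ g + h
      omega
  have hb1 : (1 + D.b) ≠ 0 := by
    have := D.b0
    positivity
  set τ : ℝ := cf r3' 1 / (1 + D.b) with hτ
  set z2 : Aa D.ρ := A + τ • ma D.ρ 1 0 + ma D.ρ 1 0 * iv D.ρ G with hz2
  refine ⟨(e0, z1, z2, dk D.ρ G, τ, r3'), ?_⟩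
  have c1 : z1 + e0 • TT D (k0 D) (ma D.ρ 1 1 * sig D.ρ (p20 D)) = r1 := by
    rw [hz1, sub_add_cancel]
  have c2 : z2 - τ • ma D.ρ 1 0 - (TT D (dk D.ρ G) (ma D.ρ 1 2) +
      TT D (k0 D) (s' * sig D.ρ (p10 D) + ma D.ρ 1 1 * sig D.ρ z1)) = r2 := by
    rw [TT_dk D hGs, hz2, hA]
    abel
  have c3 : LL D (sig D.ρ z1 * sig D.ρ (p20 D) + sig D.ρ (p10 D) * sig D.ρ z2) + Pn D r3' = r3 := by
    have e1 : sig D.ρ (p10 D) = ma D.ρ 0 1 := sig_mono _ _ _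
    have e2 : sig D.ρ (p10 D) * sig D.ρ z2 = sig D.ρ (p10 D) * sig D.ρ A +
        τ • (ma D.ρ 0 1 * sig D.ρ (ma D.ρ 1 0)) +
        ma D.ρ 0 1 * sig D.ρ (ma D.ρ 1 0 * iv D.ρ G) := by
      rw [hz2, map_add, map_add, map_smul, mul_add, mul_add, mul_smul_comm, e1]
    have e3 : (D.b • ts D.ρ 2 - 1) * (ts D.ρ (-1) * G) =
        proj ℝ (ws D.ρ) {n : ℤ | 2 ≤ n} r3' := by
      have h1 : ts D.ρ (-1) * ts D.ρ 1 = 1 := by
        rw [ts_mul]; norm_num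
      calc (D.b • ts D.ρ 2 - 1) * (ts D.ρ (-1) * G)
          = (ts D.ρ (-1) * ts D.ρ 1) * (((1 - D.b • ts D.ρ 2) * geo D) *
              proj ℝ (ws D.ρ) {n : ℤ | 2 ≤ n} r3') := by
            rw [hG]; ring
        _ = _ := by rw [h1, geo_mul, one_mul, one_mul]
    rw [e2, ← add_assoc, ← add_assoc, map_add, map_add, map_smul, LL_tau, LL_G D hGs, e3]
    have e4 : τ • (1 + D.b) • ts D.ρ 1 = cf r3' 1 • ts D.ρ 1 := by
      rw [smul_smul, hτ, div_mul_cancel₀ _ hb1]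
    rw [e4]
    have e5 := decomp_As D r3'
    have e6 : LL D (sig D.ρ z1 * sig D.ρ (p20 D) + sig D.ρ (p10 D) * sig D.ρ A) = r3 - r3' := by
      rw [hr3']; abel
    rw [e6]
    calc r3 - r3' + cf r3' 1 • ts D.ρ 1 + proj ℝ (ws D.ρ) {n : ℤ | 2 ≤ n} r3' + Pn D r3'
        = r3 - r3' + (Pn D r3' + cf r3' 1 • ts D.ρ 1 + proj ℝ (ws D.ρ) {n : ℤ | 2 ≤ n} r3') := by
          abel
      _ = r3 := by rw [← e5, sub_add_cancel]
  show DF D (e0, z1, z2, dk D.ρ G, τ, r3') = (e0, r1, r2, r3)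
  unfold DF ds
  simp only
  rw [c1, c2, c3]

/-- **Existence**: for every `η > 0` there is `d₀ > 0` such that for `|d| < d₀` there is a zero
`(p₁, p₂, k, τ, r)` of `F(d, ·)` which is `η`-close to the base point. -/
theorem exists_zero {η : ℝ} (hη : 0 < η) :
    ∃ d0 > 0, ∀ d : ℝ, |d| < d0 → ∃ u : UU D,
      FF D (d, u) = (d, 0) ∧ ‖u - (x0 D).2‖ < η := by
  have hr : LinearMap.range (fderiv ℝ (FF D) (x0 D) : (ℝ × UU D) →ₗ[ℝ] (ℝ × VV D)) = ⊤ := by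
    rw [LinearMap.range_eq_top]
    intro y
    obtain ⟨v, hv⟩ := DF_surj D y
    exact ⟨v, by rw [← hv]; exact fderiv_FF D v⟩
  have hmap := (hasStrictFDerivAt_FF D).map_nhds_eq_of_surj hr
  rw [FF_base] at hmap
  have hball : Metric.ball (x0 D) η ∈ nhds (x0 D) := Metric.ball_mem_nhds _ hη
  have himg : FF D '' Metric.ball (x0 D) η ∈ nhds (0 : ℝ × VV D) := by
    rw [← hmap]
    exact Filter.image_mem_map hball
  obtain ⟨d0, hd0, hsub⟩ := Metric.mem_nhds_iff.1 himg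
  refine ⟨d0, hd0, fun d hd => ?_⟩
  have hmem : ((d, 0) : ℝ × VV D) ∈ Metric.ball (0 : ℝ × VV D) d0 := by
    rw [mem_ball_zero_iff, Prod.norm_mk, norm_zero]
    simpa using hd
  obtain ⟨⟨d', u⟩, hu, hF⟩ := hsub hmem
  have hd' : d' = d := congrArg Prod.fst hF
  subst hd'
  refine ⟨u, hF, ?_⟩
  rw [Metric.mem_ball, dist_eq_norm] at hu
  have : ‖u - (x0 D).2‖ ≤ ‖((d', u) : ℝ × UU D) - x0 D‖ := by
    have h := norm_snd_le (((d', u) : ℝ × UU D) - x0 D)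
    exact h
  exact this.trans_lt hu

end CMC
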