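import Mathlib
import Pool.Agent.Lib.MP_479d4c_gt.H85.Exi

/-!
# The series `y, z, sg, be, ga` of a solution
-/

open scoped ENNReal BigOperators ComplexConjugate
noncomputable section
namespace CMC
open A1

variable (D : Dat)

/-- `∫_0^w k(w') g(w',v) dw'` -/
def TW (k : Ak D.ρ) (g : Aa D.ρ) : Aa D.ρ := sig D.ρ (TT D k (sig D.ρ g))

/-- the terms with `w`-exponent `0` -/
def e0w : Aa D.ρ →L[ℝ] Aa D.ρ := proj ℝ (wa D.ρ) {g : ℤ × ℤ | g.1 = 0}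

/-- `y` -/
def YY (k : Ak D.ρ) (p1 p2 : Aa D.ρ) : Aa D.ρ :=
  TW D k (p1 * p2) + TT D k (e0w D (sig D.ρ p1 * sig D.ρ p2))

/-- `z` -/
def ZZ (d : ℝ) (k : Ak D.ρ) (p1 p2 : Aa D.ρ) : Aa D.ρ :=
  TW D k (p1 * p1) - d • TT D k (e0w D (sig D.ρ p2 * sig D.ρ p2))

/-- `s` as a function of all unknowns -/
def SG (x : ℝ × UU D) : Aa D.ρ := ss D x.1 x.2.1 x.2.2.1

/-- `be = q₁ p₂ - s (sig z)` -/
def BE (x : ℝ × UU D) : Aa D.ρ :=
  sig D.ρ x.2.1 * x.2.2.1 - SG D x * sig D.ρ (ZZ D x.1 x.2.2.2.1 x.2.1 x.2.2.1)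

/-- `ga = p₂ q₂ - s y` -/
def GA (x : ℝ × UU D) : Aa D.ρ :=
  x.2.2.1 * sig D.ρ x.2.2.1 - SG D x * YY D x.2.2.2.1 x.2.1 x.2.2.1

theorem contDiff_TW {E : Type*} [NormedAddCommGroup E] [NormedSpace ℝ E] {k : E → Ak D.ρ}
    {g : E → Aa D.ρ} {n : WithTop ℕ∞} (hk : ContDiff ℝ n k) (hg : ContDiff ℝ n g) :
    ContDiff ℝ n (fun x => TW D (k x) (g x)) :=
  (sig D.ρ).contDiff.comp (contDiff_TT D hk ((sig D.ρ).contDiff.comp hg))

section
variable {D}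
theorem cd2 : ContDiff ℝ 1 (fun x : ℝ × UU D => x.2.1) := contDiff_fst.comp contDiff_snd
theorem cd3 : ContDiff ℝ 1 (fun x : ℝ × UU D => x.2.2.1) :=
    contDiff_fst.comp (contDiff_snd.comp contDiff_snd)
theorem cd4 : ContDiff ℝ 1 (fun x : ℝ × UU D => x.2.2.2.1) :=
    contDiff_fst.comp (contDiff_snd.comp (contDiff_snd.comp contDiff_snd))
theorem cdq1 : ContDiff ℝ 1 (fun x : ℝ × UU D => sig D.ρ x.2.1) := (sig D.ρ).contDiff.comp cd2
theorem cdq2 : ContDiff ℝ 1 (fun x : ℝ × UU D => sig D.ρ x.2.2.1) := (sig D.ρ).contDiff.comp cd3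
end

theorem contDiff_SG : ContDiff ℝ 1 (SG D) :=
  (cd2.mul cdq1).add (contDiff_fst.smul (cd3.mul cdq2))

theorem contDiff_BE : ContDiff ℝ 1 (BE D) := by
  refine (cdq1.mul cd3).sub ((contDiff_SG D).mul ((sig D.ρ).contDiff.comp ?_))
  exact (contDiff_TW D cd4 (cd2.mul cd2)).sub
    (contDiff_fst.smul (contDiff_TT D cd4 ((e0w D).contDiff.comp (cdq2.mul cdq2))))

theorem contDiff_GA : ContDiff ℝ 1 (GA D) := by
  refine (cd3.mul cdq2).sub ((contDiff_SG D).mul ?_)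
  exact (contDiff_TW D cd4 (cd2.mul cd3)).add
    (contDiff_TT D cd4 ((e0w D).contDiff.comp (cdq1.mul cdq2)))

theorem continuous_SG : Continuous (SG D) := (contDiff_SG D).continuous
theorem continuous_BE : Continuous (BE D) := (contDiff_BE D).continuous
theorem continuous_GA : Continuous (GA D) := (contDiff_GA D).continuous

theorem SG_base : SG D (x0 D) = ma D.ρ 1 1 := ss_base D

end CMC
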