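import Mathlib
import Pool.Agent.Lib.MP_479d4c_gt.H85.OutDefs
import Pool.Agent.Lib.MP_479d4c_gt.S.Iface

/-!
# Evaluation of the series and coefficient arrays
-/

open scoped ENNReal BigOperators ComplexConjugate
noncomputable section
namespace CMC
open A1 CMC82

/-- the character `(m,n) ↦ w^m v^n` on the quadrant -/
def chi (w v : ℂ) (g : ℤ × ℤ) : ℂ := by
  classical
  exact if g ∈ Quad then w ^ g.1.toNat * v ^ g.2.toNat else 0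

theorem chi_quad (w v : ℂ) {g : ℤ × ℤ} (h : g ∈ Quad) :
    chi w v g = w ^ g.1.toNat * v ^ g.2.toNat := by
  unfold chi; rw [if_pos h]
theorem chi_not (w v : ℂ) {g : ℤ × ℤ} (h : g ∉ Quad) : chi w v g = 0 := by
  unfold chi; rw [if_neg h]

theorem nat_quad (m n : ℕ) : ((m : ℤ), (n : ℤ)) ∈ Quad :=
  ⟨Int.natCast_nonneg m, Int.natCast_nonneg n⟩

theorem chi_nat (w v : ℂ) (m n : ℕ) : chi w v ((m : ℤ), (n : ℤ)) = w ^ m * v ^ n := by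
  rw [chi_quad w v (nat_quad m n)]; simp

theorem chi_add (w v : ℂ) {g h : ℤ × ℤ} (hg : g ∈ Quad) (hh : h ∈ Quad) :
    chi w v (g + h) = chi w v g * chi w v h := by
  rw [chi_quad w v hg, chi_quad w v hh, chi_quad w v (quad_add hg hh)]
  have e1 : (g + h).1.toNat = g.1.toNat + h.1.toNat := Int.toNat_add hg.1 hh.1
  have e2 : (g + h).2.toNat = g.2.toNat + h.2.toNat := Int.toNat_add hg.2 hh.2
  rw [e1, e2, pow_add, pow_add]; ring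

theorem norm_chi_le {ρ : Rad} {w v : ℂ} (hw : ‖w‖ ≤ ρ) (hv : ‖v‖ ≤ ρ) (g : ℤ × ℤ) :
    ‖chi w v g‖ ≤ w0 ρ g := by
  by_cases h : g ∈ Quad
  · rw [chi_quad w v h, norm_mul, norm_pow, norm_pow, w0_apply]
    have h1 : g.1.toNat ≤ g.1.natAbs := by omega
    have h2 : g.2.toNat ≤ g.2.natAbs := by omega
    refine mul_le_mul ?_ ?_ (pow_nonneg (norm_nonneg _) _) (pow_nonneg ρ.pos.le _)
    · exact (pow_le_pow_left₀ (norm_nonneg _) hw _).trans (pow_le_pow_right₀ ρ.2 h1)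
    · exact (pow_le_pow_left₀ (norm_nonneg _) hv _).trans (pow_le_pow_right₀ ρ.2 h2)
  · rw [chi_not w v h, norm_zero]
    exact (w0 ρ).nonneg g

/-! ### Evaluation and arrays for a general weight `≥ w0` -/

section
variable {ρ : Rad} {W : Wt (ℤ × ℤ)} (hW : ∀ g, w0 ρ g ≤ W g)

/-- evaluation at `(w, v)` -/
def E2 {w v : ℂ} (hw : ‖w‖ ≤ ρ) (hv : ‖v‖ ≤ ρ) : A1 ℝ W →L[ℝ] ℂ :=
  ev (chi w v) (fun g => (norm_chi_le hw hv g).trans (hW g))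

/-- coefficient array -/
def arr (a : A1 ℝ W) : Arr := fun i => cf a ((i.1 : ℤ), (i.2 : ℤ))

@[simp] theorem arr_apply (a : A1 ℝ W) (m n : ℕ) : arr a (m, n) = cf a ((m : ℤ), (n : ℤ)) := rfl

/-- the embedding of `ℕ × ℕ` -/
def emb (i : ℕ × ℕ) : ℤ × ℤ := ((i.1 : ℤ), (i.2 : ℤ))

theorem emb_inj : Function.Injective emb := fun i j h => by
  have h1 : (i.1 : ℤ) = j.1 := congrArg Prod.fst h
  have h2 : (i.2 : ℤ) = j.2 := congrArg Prod.snd h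
  ext
  · exact_mod_cast h1
  · exact_mod_cast h2

theorem range_emb : Set.range emb = Quad := by
  ext g
  constructor
  · rintro ⟨i, rfl⟩
    exact nat_quad i.1 i.2
  · rintro ⟨h1, h2⟩
    refine ⟨(g.1.toNat, g.2.toNat), ?_⟩
    show ((g.1.toNat : ℤ), (g.2.toNat : ℤ)) = g
    rw [Int.toNat_of_nonneg h1, Int.toNat_of_nonneg h2]

theorem aux_emb (a : A1 ℝ W) (w v : ℂ) (i : ℕ × ℕ) :
    (arr a i : ℂ) * w ^ i.1 * v ^ i.2 = ((fun g => cf a g • chi w v g) ∘ emb) i := by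
  have e : chi w v (emb i) = w ^ i.1 * v ^ i.2 := chi_nat w v i.1 i.2
  show (arr a i : ℂ) * w ^ i.1 * v ^ i.2 = cf a (emb i) • chi w v (emb i)
  rw [e, Complex.real_smul, mul_assoc]
  rfl

include hW in
theorem hasSum_ev2 {w v : ℂ} (hw : ‖w‖ ≤ ρ) (hv : ‖v‖ ≤ ρ) (a : A1 ℝ W) :
    HasSum (fun i : ℕ × ℕ => (arr a i : ℂ) * w ^ i.1 * v ^ i.2) (E2 hW hw hv a) := by
  have h1 := hasSum_ev (chi w v) (fun g => (norm_chi_le hw hv g).trans (hW g)) a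
  have h2 := (emb_inj.hasSum_iff (f := fun g => cf a g • chi w v g) (fun g hg => by
    rw [range_emb] at hg
    rw [chi_not w v hg, smul_zero])).2 h1
  have h3 : (fun i : ℕ × ℕ => (arr a i : ℂ) * w ^ i.1 * v ^ i.2) =
      ((fun g => cf a g • chi w v g) ∘ emb) := by
    funext i
    exact aux_emb a w v i
  rw [h3]
  exact h2

include hW in
theorem ev2_arr {w v : ℂ} (hw : ‖w‖ ≤ ρ) (hv : ‖v‖ ≤ ρ) (a : A1 ℝ W) :
    ev2 (arr a) w v = E2 hW hw hv a := (hasSum_ev2 hW hw hv a).tsum_eq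

include hW in
theorem E2_mul {w v : ℂ} (hw : ‖w‖ ≤ ρ) (hv : ‖v‖ ≤ ρ) {a b : A1 ℝ W} (ha : SuppIn Quad a)
    (hb : SuppIn Quad b) : E2 hW hw hv (a * b) = E2 hW hw hv a * E2 hW hw hv b :=
  ev_mul _ _ (fun _ hg _ hh => chi_add w v hg hh) ha hb

include hW in
theorem E2_mono {w v : ℂ} (hw : ‖w‖ ≤ ρ) (hv : ‖v‖ ≤ ρ) (m n : ℕ) :
    E2 hW hw hv (mono ℝ W ((m : ℤ), (n : ℤ))) = w ^ m * v ^ n := by
  unfold E2
  rw [ev_mono, chi_nat]

include hW in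
theorem ev2_mul {w v : ℂ} (hw : ‖w‖ ≤ ρ) (hv : ‖v‖ ≤ ρ) {a b : A1 ℝ W} (ha : SuppIn Quad a)
    (hb : SuppIn Quad b) : ev2 (arr (a * b)) w v = ev2 (arr a) w v * ev2 (arr b) w v := by
  rw [ev2_arr hW hw hv, ev2_arr hW hw hv, ev2_arr hW hw hv, E2_mul hW hw hv ha hb]

include hW in
theorem ev2_add {w v : ℂ} (hw : ‖w‖ ≤ ρ) (hv : ‖v‖ ≤ ρ) (a b : A1 ℝ W) :
    ev2 (arr (a + b)) w v = ev2 (arr a) w v + ev2 (arr b) w v := by
  rw [ev2_arr hW hw hv, ev2_arr hW hw hv, ev2_arr hW hw hv, map_add]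

include hW in
theorem ev2_sub {w v : ℂ} (hw : ‖w‖ ≤ ρ) (hv : ‖v‖ ≤ ρ) (a b : A1 ℝ W) :
    ev2 (arr (a - b)) w v = ev2 (arr a) w v - ev2 (arr b) w v := by
  rw [ev2_arr hW hw hv, ev2_arr hW hw hv, ev2_arr hW hw hv, map_sub]

include hW in
theorem ev2_smul {w v : ℂ} (hw : ‖w‖ ≤ ρ) (hv : ‖v‖ ≤ ρ) (c : ℝ) (a : A1 ℝ W) :
    ev2 (arr (c • a)) w v = c * ev2 (arr a) w v := by
  rw [ev2_arr hW hw hv, ev2_arr hW hw hv, map_smul, Complex.real_smul]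

include hW in
theorem ev2_mono {w v : ℂ} (hw : ‖w‖ ≤ ρ) (hv : ‖v‖ ≤ ρ) (m n : ℕ) :
    ev2 (arr (mono ℝ W ((m : ℤ), (n : ℤ)))) w v = w ^ m * v ^ n := by
  rw [ev2_arr hW hw hv, E2_mono]

end
end CMC
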