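import Mathlib
import Pool.Agent.Lib.MP_479d4c_gt.H85.Eval

/-!
# Coefficients of `Tv`, `io`; the arrays of a solution (part 1)
-/

open scoped ENNReal BigOperators ComplexConjugate
noncomputable section
namespace CMC
open A1 CMC82

/-! ### coefficients of `Tv` -/

theorem cf_Tv (ρ : Rad) (f : Ab ρ) {m n : ℤ} (hm : 0 ≤ m) (hn : 0 ≤ n) :
    ((n : ℝ) + 1) * cf (Tv ρ f) (m, n + 1) = cf f (m, n) := by
  have hn' : (0 : ℝ) ≤ n := by exact_mod_cast hn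
  have hn0 : ((n : ℝ) + 1) ≠ 0 := by linarith
  have h : ((n : ℝ) + 1) • (cfL ℝ (wa ρ) (m, n + 1)).comp (Tv ρ) = cfL ℝ (wb ρ) (m, n) :=
    clm_ext fun g => by
      classical
      obtain ⟨i, j⟩ := g
      show ((n : ℝ) + 1) • cf (Tv ρ (mono ℝ (wb ρ) (i, j))) (m, n + 1) =
        cf (mono ℝ (wb ρ) (i, j)) (m, n)
      rw [cf_mono]
      by_cases hg : (i, j) ∈ Quad
      · obtain ⟨h1, h2⟩ := hg
        rw [Tv_mono ρ h1 h2, cf_smul, cf_mono]
        by_cases e : (m, n) = (i, j)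
        · have e1 : m = i := congrArg Prod.fst e
          have e2 : n = j := congrArg Prod.snd e
          subst e1 e2
          rw [if_pos rfl, if_pos rfl, smul_eq_mul]
          field_simp
        · rw [if_neg e, if_neg (fun e' : (m, n + 1) = (i, j + 1) => e (by
            have e1 : m = i := congrArg Prod.fst e'
            have e2 : n + 1 = j + 1 := congrArg Prod.snd e'
            rw [e1, add_right_cancel e2]))]
          simp
      · rw [Tv_mono_not ρ hg, cf_zero, if_neg (fun e : (m, n) = (i, j) => hg (e ▸ ⟨hm, hn⟩))]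
        simp
  exact congrArg (fun L => L f) h

theorem cf_Tv_zero (ρ : Rad) (f : Ab ρ) (m : ℤ) : cf (Tv ρ f) (m, 0) = 0 := by
  have h : (cfL ℝ (wa ρ) (m, 0)).comp (Tv ρ) = 0 := clm_ext fun g => by
    classical
    obtain ⟨i, j⟩ := g
    show cf (Tv ρ (mono ℝ (wb ρ) (i, j))) (m, 0) = 0
    by_cases hg : (i, j) ∈ Quad
    · obtain ⟨h1, h2⟩ := hg
      have h2' : 0 ≤ j := h2
      rw [Tv_mono ρ h1 h2, cf_smul, cf_mono, if_neg (fun e' : (m, (0 : ℤ)) = (i, j + 1) => by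
        have e2 : (0 : ℤ) = j + 1 := congrArg Prod.snd e'
        omega), mul_zero]
    · rw [Tv_mono_not ρ hg, cf_zero]
  exact congrArg (fun L => L f) h

theorem suppIn_Tv (ρ : Rad) (f : Ab ρ) : SuppIn Quad (Tv ρ f) := by
  intro k hk
  have h : (cfL ℝ (wa ρ) k).comp (Tv ρ) = 0 := clm_ext fun g => by
    classical
    obtain ⟨i, j⟩ := g
    show cf (Tv ρ (mono ℝ (wb ρ) (i, j))) k = 0
    by_cases hg : (i, j) ∈ Quad
    · obtain ⟨h1, h2⟩ := hg
      have h2' : 0 ≤ j := h2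
      have h1' : 0 ≤ i := h1
      rw [Tv_mono ρ h1 h2, cf_smul, cf_mono, if_neg (fun e' : k = (i, j + 1) => by
        apply hk
        rw [e']
        exact ⟨h1', by show 0 ≤ j + 1; omega⟩), mul_zero]
    · rw [Tv_mono_not ρ hg, cf_zero]
  exact congrArg (fun L => L f) h

/-! ### coefficients of `io` -/

theorem cf_io (ρ : Rad) (k : Ak ρ) {n : ℤ} (hn : 0 ≤ n) : cf (io ρ k) (0, n) = cf k n := by
  have h : (cfL ℝ (wb ρ) (0, n)).comp (io ρ) = cfL ℝ (wk ρ) n := clm_ext fun j => by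
    classical
    show cf (io ρ (mono ℝ (wk ρ) j)) (0, n) = cf (mono ℝ (wk ρ) j) n
    rw [cf_mono]
    by_cases hj : 0 ≤ j
    · rw [io_mono ρ hj, cf_mono]
      by_cases e : n = j
      · subst e; simp
      · rw [if_neg e, if_neg (fun e' : ((0 : ℤ), n) = (0, j) => e (congrArg Prod.snd e'))]
    · rw [io_mono_neg ρ hj, cf_zero, if_neg (by omega)]
  exact congrArg (fun L => L k) h

theorem cf_io_ne (ρ : Rad) (k : Ak ρ) {m n : ℤ} (h : ¬ (m = 0 ∧ 0 ≤ n)) :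
    cf (io ρ k) (m, n) = 0 := by
  have h : (cfL ℝ (wb ρ) (m, n)).comp (io ρ) = 0 := clm_ext fun j => by
    classical
    show cf (io ρ (mono ℝ (wk ρ) j)) (m, n) = 0
    by_cases hj : 0 ≤ j
    · rw [io_mono ρ hj, cf_mono, if_neg]
      intro e
      have e1 : m = 0 := congrArg Prod.fst e
      have e2 : n = j := congrArg Prod.snd e
      exact h ⟨e1, by omega⟩
    · rw [io_mono_neg ρ hj, cf_zero]
  exact congrArg (fun L => L k) h

theorem suppIn_io (ρ : Rad) (k : Ak ρ) : SuppIn Quad (io ρ k) := by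
  rintro ⟨m, n⟩ hg
  refine cf_io_ne ρ k fun h => hg ?_
  exact ⟨h.1.ge, h.2⟩

/-- the array of a one-variable series -/
def ark {ρ : Rad} (k : Ak ρ) : ℕ → ℝ := fun j => cf k (j : ℤ)

theorem ev1_ark (ρ : Rad) (k : Ak ρ) {w v : ℂ} (hw : ‖w‖ ≤ ρ) (hv : ‖v‖ ≤ ρ) :
    ev2 (arr (io ρ k)) w v = ev1 (ark k) v := by
  have hs := (hasSum_ev2 (w0_le_wb ρ) hw hv (io ρ k))
  have hinj : Function.Injective (fun j : ℕ => ((0, j) : ℕ × ℕ)) := fun i j h =>
    congrArg Prod.snd h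
  have h2 := (hinj.hasSum_iff
    (f := fun i : ℕ × ℕ => (arr (io ρ k) i : ℂ) * w ^ i.1 * v ^ i.2) (fun i hi => by
      have : arr (io ρ k) i = 0 := by
        refine cf_io_ne ρ k fun h => hi ⟨i.2, ?_⟩
        have h1 : (i.1 : ℤ) = 0 := h.1
        have h1' : i.1 = 0 := by exact_mod_cast h1
        exact Prod.ext h1'.symm rfl
      rw [this]; simp)).2 hs
  unfold ev2 ev1
  rw [hs.tsum_eq, ← h2.tsum_eq]
  refine tsum_congr fun j => ?_
  show (arr (io ρ k) (0, j) : ℂ) * w ^ 0 * v ^ j = (ark k j : ℂ) * v ^ j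
  have : arr (io ρ k) (0, j) = ark k j := cf_io ρ k (Int.natCast_nonneg j)
  rw [this]; simp

/-! ### the swap on arrays -/

theorem arr_sig (ρ : Rad) (a : Aa ρ) (m n : ℕ) : arr (sig ρ a) (m, n) = arr a (n, m) :=
  cf_sig ρ a m n

theorem suppIn_sig {ρ : Rad} {a : Aa ρ} (h : SuppIn Quad a) : SuppIn Quad (sig ρ a) := by
  rintro ⟨m, n⟩ hg
  rw [cf_sig]
  exact h _ fun h' => hg ⟨h'.2, h'.1⟩

theorem ev2_swap (f : Arr) (w v : ℂ) : ev2 (fun i => f (i.2, i.1)) w v = ev2 f v w := by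
  unfold ev2
  rw [← (Equiv.prodComm ℕ ℕ).tsum_eq (fun i : ℕ × ℕ => (f i : ℂ) * v ^ i.1 * w ^ i.2)]
  refine tsum_congr fun i => ?_
  show (f (i.2, i.1) : ℂ) * w ^ i.1 * v ^ i.2 = (f (i.2, i.1) : ℂ) * v ^ i.2 * w ^ i.1
  ring

theorem ev2_sig (ρ : Rad) (a : Aa ρ) (w v : ℂ) : ev2 (arr (sig ρ a)) w v = ev2 (arr a) v w := by
  rw [← ev2_swap (arr a) w v]
  congr 1
  funext i
  exact arr_sig ρ a i.1 i.2

theorem arr_rab (ρ : Rad) (a : Aa ρ) : arr (rab ρ a) = arr a := by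
  funext i
  exact cf_rab ρ a _

theorem suppIn_rab {ρ : Rad} {a : Aa ρ} (h : SuppIn Quad a) : SuppIn Quad (rab ρ a) := by
  intro g hg
  rw [cf_rab]
  exact h g hg

/-- the product `k(v) g` as a function -/
theorem ev2_kmul (ρ : Rad) (k : Ak ρ) {g : Aa ρ} (hg : SuppIn Quad g) {w v : ℂ} (hw : ‖w‖ ≤ ρ)
    (hv : ‖v‖ ≤ ρ) :
    ev2 (arr (io ρ k * rab ρ g)) w v = ev1 (ark k) v * ev2 (arr g) w v := by
  rw [CMC.ev2_mul (w0_le_wb ρ) hw hv (suppIn_io ρ k) (suppIn_rab hg), ev1_ark ρ k hw hv, arr_rab]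

variable (D : Dat)

/-- `∂_v` of the array of `TT k g` is the array of `k(v) g` -/
theorem dv_arr_TT (k : Ak D.ρ) (g : Aa D.ρ) :
    dv (arr (TT D k g)) = arr (io D.ρ k * rab D.ρ g) := by
  funext i
  show ((i.2 : ℝ) + 1) * cf (TT D k g) ((i.1 : ℤ), ((i.2 + 1 : ℕ) : ℤ)) =
    cf (io D.ρ k * rab D.ρ g) ((i.1 : ℤ), (i.2 : ℤ))
  have := cf_Tv D.ρ (io D.ρ k * rab D.ρ g) (Int.natCast_nonneg i.1) (Int.natCast_nonneg i.2)
  push_cast at this ⊢
  exact this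

theorem suppIn_TT (k : Ak D.ρ) (g : Aa D.ρ) : SuppIn Quad (TT D k g) := suppIn_Tv _ _

theorem arr_TT_zero (k : Ak D.ρ) (g : Aa D.ρ) (m : ℕ) : arr (TT D k g) (m, 0) = 0 :=
  cf_Tv_zero D.ρ _ _

theorem suppIn_TW (k : Ak D.ρ) (g : Aa D.ρ) : SuppIn Quad (TW D k g) :=
  suppIn_sig (suppIn_TT D k _)

/-- `TT` vanishes at `v = 0` -/
theorem ev2_TT_zero (k : Ak D.ρ) (g : Aa D.ρ) (w : ℂ) : ev2 (arr (TT D k g)) w 0 = 0 := by
  unfold ev2
  convert tsum_zero with i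
  obtain ⟨m, n⟩ := i
  rcases Nat.eq_zero_or_pos n with h | h
  · subst h
    rw [arr_TT_zero]; simp
  · have : (0 : ℂ) ^ n = 0 := zero_pow (by omega)
    show (arr (TT D k g) (m, n) : ℂ) * w ^ m * 0 ^ n = 0
    rw [this, mul_zero]

/-- values at `w = 0` depend only on the coefficients with `m = 0` -/
theorem ev2_zero_congr {f f' : Arr} (h : ∀ n, f (0, n) = f' (0, n)) (v : ℂ) :
    ev2 f 0 v = ev2 f' 0 v := by
  unfold ev2
  refine tsum_congr fun i => ?_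
  obtain ⟨m, n⟩ := i
  show (f (m, n) : ℂ) * 0 ^ m * v ^ n = (f' (m, n) : ℂ) * 0 ^ m * v ^ n
  rcases Nat.eq_zero_or_pos m with hm | hm
  · subst hm; rw [h]
  · rw [zero_pow (by omega)]; simp

theorem cf_e0w (g : Aa D.ρ) (n : ℤ) : cf (e0w D g) (0, n) = cf g (0, n) :=
  cf_proj_mem g (show ((0 : ℤ), n) ∈ {g : ℤ × ℤ | g.1 = 0} from rfl)

theorem suppIn_e0w {g : Aa D.ρ} (hg : SuppIn Quad g) : SuppIn Quad (e0w D g) := fun k hk => by
  classical
  show cf (proj ℝ (wa D.ρ) {g : ℤ × ℤ | g.1 = 0} g) k = 0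
  rw [cf_proj]
  split_ifs
  · exact hg k hk
  · rfl

theorem suppIn_e0w' (g : Aa D.ρ) : SuppIn {g : ℤ × ℤ | g.1 = 0} (e0w D g) := suppIn_proj _ g

theorem suppIn_io' (ρ : Rad) (k : Ak ρ) : SuppIn {g : ℤ × ℤ | g.1 = 0} (io ρ k) := by
  rintro ⟨m, n⟩ hg
  exact cf_io_ne ρ k fun h => hg h.1

/-- `TT k (e0w g)` has no terms with `m > 0` -/
theorem arr_TT_e0w (k : Ak D.ρ) (g : Aa D.ρ) (m n : ℕ) :
    arr (TT D k (e0w D g)) (m + 1, n) = 0 := by
  rcases Nat.eq_zero_or_pos n with h | h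
  · subst h
    exact arr_TT_zero D k _ _
  · obtain ⟨j, rfl⟩ : ∃ j, n = j + 1 := ⟨n - 1, by omega⟩
    have h1 := congrFun (dv_arr_TT D k (e0w D g)) (m + 1, j)
    have h2 : arr (io D.ρ k * rab D.ρ (e0w D g)) (m + 1, j) = 0 := by
      have hs : SuppIn {g : ℤ × ℤ | g.1 = 0} (io D.ρ k * rab D.ρ (e0w D g)) :=
        SuppIn.mul (S := {g : ℤ × ℤ | g.1 = 0}) (T := {g : ℤ × ℤ | g.1 = 0})
          (fun a ha b hb => by
            have h1 : a.1 = 0 := ha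
            have h2 : b.1 = 0 := hb
            show (a + b).1 = 0
            rw [Prod.fst_add, h1, h2, add_zero]) (suppIn_io' _ k)
          (fun a ha => by rw [cf_rab]; exact suppIn_e0w' D g a ha)
      refine hs _ fun h => ?_
      have h' : ((m + 1 : ℕ) : ℤ) = 0 := h
      omega
    rw [h2] at h1
    have h3 : ((j : ℝ) + 1) * arr (TT D k (e0w D g)) (m + 1, j + 1) = 0 := h1
    have h4 : ((j : ℝ) + 1) ≠ 0 := by positivity
    exact (mul_eq_zero.1 h3).resolve_left h4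

/-- values at `w = 0` of `e0w g` -/
theorem ev2_e0w (g : Aa D.ρ) (v : ℂ) : ev2 (arr (e0w D g)) 0 v = ev2 (arr g) 0 v :=
  ev2_zero_congr (fun n => cf_e0w D g n) v

/-- `∂_w` of the array of `TW k g` -/
theorem dw_arr_TW (k : Ak D.ρ) (g : Aa D.ρ) :
    dw (arr (TW D k g)) = fun i => arr (io D.ρ k * rab D.ρ (sig D.ρ g)) (i.2, i.1) := by
  funext i
  have h := congrFun (dv_arr_TT D k (sig D.ρ g)) (i.2, i.1)
  rw [← h]
  show ((i.1 : ℝ) + 1) * arr (sig D.ρ (TT D k (sig D.ρ g))) (i.1 + 1, i.2) =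
    ((i.1 : ℝ) + 1) * arr (TT D k (sig D.ρ g)) (i.2, i.1 + 1)
  rw [arr_sig]

end CMC
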