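import Mathlib
import Pool.Agent.Lib.MP_479d4c_gt.H85.Out1

/-!
# From a zero of `F` to the structure `Sol`
-/

open scoped ENNReal BigOperators ComplexConjugate
noncomputable section
namespace CMC
open A1 CMC82

/-! ### finite weighted norms, nearness -/

theorem wt_le (ρ : Rad) (hρ : (ρ : ℝ) = 6 / 5) (i : ℕ × ℕ) : wt i ≤ wa ρ (emb i) := by
  have e1 : ((i.1 : ℤ)).natAbs = i.1 := Int.natAbs_natCast _
  have e2 : ((i.2 : ℤ)).natAbs = i.2 := Int.natAbs_natCast _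
  unfold wt emb
  rw [wa_apply, e1, e2, ← hρ, pow_add]
  have h1 : (0 : ℝ) ≤ (i.1 : ℝ) := by positivity
  have h2 : (0 : ℝ) ≤ (i.2 : ℝ) := by positivity
  have h3 : 0 ≤ (ρ : ℝ) ^ i.1 * (ρ : ℝ) ^ i.2 := mul_nonneg (pow_nonneg ρ.pos.le _)
    (pow_nonneg ρ.pos.le _)
  have h4 : (1 + (i.1 : ℝ) + i.2) ≤ (1 + (i.1 : ℝ)) * (1 + (i.2 : ℝ)) := by nlinarith
  calc (1 + (i.1 : ℝ) + i.2) * ((ρ : ℝ) ^ i.1 * (ρ : ℝ) ^ i.2)
      ≤ ((1 + (i.1 : ℝ)) * (1 + (i.2 : ℝ))) * ((ρ : ℝ) ^ i.1 * (ρ : ℝ) ^ i.2) :=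
        mul_le_mul_of_nonneg_right h4 h3
    _ = _ := by ring

theorem wt_nonneg (i : ℕ × ℕ) : 0 ≤ wt i := by
  unfold wt; positivity

theorem summable_emb {ρ : Rad} (a : Aa ρ) :
    Summable fun i : ℕ × ℕ => ‖cf a (emb i)‖ * wa ρ (emb i) :=
  (A1.summable a).comp_injective emb_inj

theorem summable_wt {ρ : Rad} (hρ : (ρ : ℝ) = 6 / 5) (a : Aa ρ) :
    Summable fun i : ℕ × ℕ => wt i * |arr a i| := by
  refine Summable.of_nonneg_of_le (fun i => mul_nonneg (wt_nonneg i) (abs_nonneg _)) (fun i => ?_)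
    (summable_emb a)
  rw [mul_comm]
  exact mul_le_mul_of_nonneg_left (wt_le ρ hρ i) (abs_nonneg _)

theorem fn_arr {ρ : Rad} (hρ : (ρ : ℝ) = 6 / 5) (a : Aa ρ) : Fn (arr a) := summable_wt hρ a

theorem tsum_wt_le {ρ : Rad} (hρ : (ρ : ℝ) = 6 / 5) (a : Aa ρ) :
    ∑' i : ℕ × ℕ, wt i * |arr a i| ≤ ‖a‖ := by
  calc ∑' i : ℕ × ℕ, wt i * |arr a i| ≤ ∑' i : ℕ × ℕ, ‖cf a (emb i)‖ * wa ρ (emb i) := by
        refine Summable.tsum_le_tsum (fun i => ?_) (summable_wt hρ a) (summable_emb a)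
        rw [mul_comm]
        exact mul_le_mul_of_nonneg_left (wt_le ρ hρ i) (abs_nonneg _)
    _ ≤ ∑' g, ‖cf a g‖ * wa ρ g :=
        tsum_comp_le_tsum_of_inj (A1.summable a)
          (fun g => mul_nonneg (norm_nonneg _) ((wa ρ).nonneg g)) emb_inj
    _ = ‖a‖ := (A1.norm_eq a).symm

theorem near_arr {ρ : Rad} (hρ : (ρ : ℝ) = 6 / 5) {a a0 : Aa ρ} {η : ℝ} (h : ‖a - a0‖ ≤ η) :
    Near η (arr a) (arr a0) := by
  have e : ∀ i, wt i * |arr a i - arr a0 i| = wt i * |arr (a - a0) i| := fun i => by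
    have : arr (a - a0) i = arr a i - arr a0 i := cf_sub a a0 _
    rw [this]
  constructor
  · refine (summable_wt hρ (a - a0)).congr fun i => (e i).symm
  · rw [tsum_congr e]
    exact (tsum_wt_le hρ _).trans h

/-! ### the unit circle -/

/-- evaluation of a one-variable Laurent series at a point of the unit circle -/
def E1 (ρ : Rad) {w : ℂ} (hw : ‖w‖ = 1) : As ρ →L[ℝ] ℂ :=
  ev (fun n : ℤ => w ^ n) (fun n => by
    rw [norm_zpow, hw, one_zpow]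
    exact (one_le_wk ρ n).trans (wk_le_ws ρ n))

theorem E1_mono (ρ : Rad) {w : ℂ} (hw : ‖w‖ = 1) (n : ℤ) : E1 ρ hw (mono ℝ (ws ρ) n) = w ^ n :=
  ev_mono _ _ _

theorem E1_mul (ρ : Rad) {w : ℂ} (hw : ‖w‖ = 1) (a b : As ρ) :
    E1 ρ hw (a * b) = E1 ρ hw a * E1 ρ hw b := by
  have h0 : w ≠ 0 := by
    intro h; rw [h, norm_zero] at hw; exact zero_ne_one hw
  exact ev_mul _ _ (S := Set.univ) (T := Set.univ) (fun g _ h _ => zpow_add₀ h0 g h)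
    (suppIn_univ a) (suppIn_univ b)

theorem unit_conj {w : ℂ} (hw : ‖w‖ = 1) : conj w = w⁻¹ := by
  refine eq_inv_of_mul_eq_one_left ?_
  rw [mul_comm, Complex.mul_conj, Complex.normSq_eq_norm_sq, hw]
  norm_num

/-- restriction to the circle = evaluation at `(w, conj w)` -/
theorem E1_bd (ρ : Rad) {w : ℂ} (hw : ‖w‖ = 1) {f : Aa ρ} (hf : SuppIn Quad f) :
    E1 ρ hw (bd ρ f) = ev2 (arr f) w (conj w) := by
  have h0 : w ≠ 0 := by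
    intro h; rw [h, norm_zero] at hw; exact zero_ne_one hw
  have hw1 : ‖w‖ ≤ ρ := by rw [hw]; exact ρ.2
  have hv1 : ‖conj w‖ ≤ ρ := by rw [RCLike.norm_conj]; exact hw1
  rw [ev2_arr (w0_le_wa ρ) hw1 hv1]
  have h : ((E1 ρ hw).comp (bd ρ)).comp (proj ℝ (wa ρ) Quad) =
      (E2 (w0_le_wa ρ) hw1 hv1).comp (proj ℝ (wa ρ) Quad) := clm_ext fun g => by
    classical
    obtain ⟨m, n⟩ := g
    rw [ContinuousLinearMap.comp_apply, ContinuousLinearMap.comp_apply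
      (g := E2 (w0_le_wa ρ) hw1 hv1)]
    by_cases hg : (m, n) ∈ Quad
    · rw [proj_eq_self_iff.2 (suppIn_mono hg), ContinuousLinearMap.comp_apply, bd_mono, E1_mono]
      obtain ⟨h1, h2⟩ := hg
      obtain ⟨i, rfl⟩ := Int.eq_ofNat_of_zero_le h1
      obtain ⟨j, rfl⟩ := Int.eq_ofNat_of_zero_le h2
      rw [E2_mono, unit_conj hw, zpow_sub₀ h0, zpow_natCast, zpow_natCast, inv_pow, div_eq_mul_inv]
    · have : proj ℝ (wa ρ) Quad (mono ℝ (wa ρ) (m, n)) = 0 := by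
        ext j
        rw [cf_proj, cf_mono]
        by_cases hj : j ∈ Quad
        · rw [if_pos hj, if_neg (fun e : j = (m, n) => hg (e ▸ hj)), cf_zero]
        · rw [if_neg hj, cf_zero]
      rw [this, map_zero, map_zero]
  have := congrArg (fun L => L f) h
  simp only [ContinuousLinearMap.comp_apply, proj_eq_self_iff.2 hf] at this
  exact this

/-- symmetric coefficients give real values on the circle -/
theorem im_E1 (ρ : Rad) {w : ℂ} (hw : ‖w‖ = 1) {c : As ρ} (hc : ∀ n : ℤ, 0 < n → cf c n = cf c (-n)) :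
    (E1 ρ hw c).im = 0 := by
  have hsym : ∀ n : ℤ, cf c (-n) = cf c n := fun n => by
    rcases lt_trichotomy n 0 with h | h | h
    · have := hc (-n) (by omega)
      rw [neg_neg] at this
      exact this
    · rw [h, neg_zero]
    · exact (hc n h).symm
  have h1 : conj (E1 ρ hw c) = E1 ρ hw c := by
    show conj (∑' n : ℤ, cf c n • w ^ n) = ∑' n : ℤ, cf c n • w ^ n
    rw [Complex.conj_tsum, ← (Equiv.neg ℤ).tsum_eq (fun n : ℤ => cf c n • w ^ n)]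
    refine tsum_congr fun n => ?_
    show conj (cf c n • w ^ n) = cf c (-n) • w ^ (-n)
    rw [hsym, Complex.real_smul, Complex.real_smul, map_mul, Complex.conj_ofReal, map_zpow₀,
      unit_conj hw, inv_zpow, zpow_neg]
  exact Complex.conj_eq_iff_im.1 h1

/-! ### the fields of `Sol` -/

variable (D : Dat)

/-- A zero of `F`. -/
structure IsZ (d τ : ℝ) (k : Ak D.ρ) (p1 p2 : Aa D.ρ) : Prop where
  z1 : p1 = ma D.ρ 1 0 - d • TT D k (ss D d p1 p2 * sig D.ρ p2)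
  z2 : p2 = 1 + τ • ma D.ρ 1 0 + D.b • ma D.ρ 2 0 + TT D k (ss D d p1 p2 * sig D.ρ p1)
  z3 : ∀ n : ℤ, 0 < n → cf (LL D (sig D.ρ p1 * sig D.ρ p2)) n = 0

theorem isZ_of_FF {d : ℝ} {u : UU D} (h : FF D (d, u) = (d, 0)) :
    IsZ D d u.2.2.2.1 u.2.2.1 u.1 u.2.1 := by
  unfold FF at h
  have h0 := congrArg Prod.snd h
  simp only at h0
  have h1 := congrArg Prod.fst h0
  have h2 := congrArg Prod.fst (congrArg Prod.snd h0)
  have h3 := congrArg Prod.snd (congrArg Prod.snd h0)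
  simp only [Prod.fst_zero, Prod.snd_zero] at h1 h2 h3
  constructor
  · rw [eq_sub_iff_add_eq]
    rw [sub_add_eq_add_sub, sub_eq_zero] at h1
    exact h1
  · rw [sub_sub, sub_eq_zero] at h2
    exact h2
  · intro n hn
    have h4 := congrArg (fun a => cf a n) h3
    simp only [cf_add, cf_zero] at h4
    have h5 : cf (Pn D u.2.2.2.2) n = 0 := cf_proj_not_mem _ (show n ∉ {n : ℤ | n ≤ 0} by
      show ¬ (n ≤ 0); omega)
    rw [h5, add_zero] at h4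
    exact h4

variable {D}
variable {d τ : ℝ} {k : Ak D.ρ} {p1 p2 : Aa D.ρ}

theorem suppIn_ma (m n : ℕ) : SuppIn Quad (ma D.ρ (m : ℤ) (n : ℤ)) := suppIn_mono (nat_quad m n)

theorem IsZ.s1 (h : IsZ D d τ k p1 p2) : SuppIn Quad p1 := by
  rw [h.z1]
  exact (suppIn_ma 1 0).sub ((suppIn_TT D k _).smul d)
theorem IsZ.s2 (h : IsZ D d τ k p1 p2) : SuppIn Quad p2 := by
  rw [h.z2]
  exact (((SuppIn.one (show (0 : ℤ × ℤ) ∈ Quad from ⟨le_refl _, le_refl _⟩)).add ((suppIn_ma 1 0).smul τ)).add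
    ((suppIn_ma 2 0).smul D.b)).add (suppIn_TT D k _)
theorem suppIn_mulQ {a b : Aa D.ρ} (ha : SuppIn Quad a) (hb : SuppIn Quad b) :
    SuppIn Quad (a * b) := ha.mul (fun _ hg _ hh => quad_add hg hh) hb
theorem IsZ.q1 (h : IsZ D d τ k p1 p2) : SuppIn Quad (sig D.ρ p1) := suppIn_sig h.s1
theorem IsZ.q2 (h : IsZ D d τ k p1 p2) : SuppIn Quad (sig D.ρ p2) := suppIn_sig h.s2
theorem IsZ.ss (h : IsZ D d τ k p1 p2) : SuppIn Quad (ss D d p1 p2) :=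
  (suppIn_mulQ h.s1 h.q1).add ((suppIn_mulQ h.s2 h.q2).smul d)
theorem IsZ.yy (_h : IsZ D d τ k p1 p2) : SuppIn Quad (YY D k p1 p2) :=
  (suppIn_TW D k _).add (suppIn_TT D k _)
theorem IsZ.zz (_h : IsZ D d τ k p1 p2) : SuppIn Quad (ZZ D d k p1 p2) :=
  (suppIn_TW D k _).sub ((suppIn_TT D k _).smul d)

section
variable {w v : ℂ} (hw : ‖w‖ ≤ D.ρ) (hv : ‖v‖ ≤ D.ρ)
include hw hv

theorem em {a b : Aa D.ρ} (ha : SuppIn Quad a) (hb : SuppIn Quad b) :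
    ev2 (arr (a * b)) w v = ev2 (arr a) w v * ev2 (arr b) w v :=
  CMC.ev2_mul (w0_le_wa D.ρ) hw hv ha hb
theorem ea (a b : Aa D.ρ) : ev2 (arr (a + b)) w v = ev2 (arr a) w v + ev2 (arr b) w v :=
  CMC.ev2_add (w0_le_wa D.ρ) hw hv a b
theorem eb (a b : Aa D.ρ) : ev2 (arr (a - b)) w v = ev2 (arr a) w v - ev2 (arr b) w v :=
  CMC.ev2_sub (w0_le_wa D.ρ) hw hv a b
theorem es (c : ℝ) (a : Aa D.ρ) : ev2 (arr (c • a)) w v = c * ev2 (arr a) w v :=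
  CMC.ev2_smul (w0_le_wa D.ρ) hw hv c a
theorem eo (m n : ℕ) : ev2 (arr (ma D.ρ (m : ℤ) (n : ℤ))) w v = w ^ m * v ^ n :=
  CMC.ev2_mono (w0_le_wa D.ρ) hw hv m n

theorem IsZ.e_s (h : IsZ D d τ k p1 p2) : ev2 (arr (CMC.ss D d p1 p2)) w v =
    ev2 (arr p1) w v * ev2 (arr p1) v w + d * (ev2 (arr p2) w v * ev2 (arr p2) v w) := by
  unfold CMC.ss
  rw [ea hw hv, es hw hv, em hw hv h.s1 h.q1, em hw hv h.s2 h.q2, ev2_sig, ev2_sig]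

/-- evaluation of `k(v) g` -/
theorem e_kv (k : Ak D.ρ) {g : Aa D.ρ} (hg : SuppIn Quad g) :
    ev2 (arr (io D.ρ k * rab D.ρ g)) w v = ev1 (ark k) v * ev2 (arr g) w v :=
  ev2_kmul D.ρ k hg hw hv

theorem IsZ.e_e1 (h : IsZ D d τ k p1 p2) : ev2 (dv (arr p1)) w v =
    -(d * (ev2 (arr (CMC.ss D d p1 p2)) w v * ev1 (ark k) v * ev2 (arr p2) v w)) := by
  have h1 : dv (arr p1) = arr ((-d) • (io D.ρ k * rab D.ρ (CMC.ss D d p1 p2 * sig D.ρ p2))) := by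
    have h2 := dv_arr_TT D k (CMC.ss D d p1 p2 * sig D.ρ p2)
    funext i
    have h3 := congrFun h2 i
    have h4 : arr ((-d) • (io D.ρ k * rab D.ρ (CMC.ss D d p1 p2 * sig D.ρ p2))) i =
        (-d) * arr (io D.ρ k * rab D.ρ (CMC.ss D d p1 p2 * sig D.ρ p2)) i := cf_smul _ _ _
    rw [h4, ← h3]
    show ((i.2 : ℝ) + 1) * cf p1 ((i.1 : ℤ), ((i.2 + 1 : ℕ) : ℤ)) =
      -d * (((i.2 : ℝ) + 1) * cf (TT D k (CMC.ss D d p1 p2 * sig D.ρ p2))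
        ((i.1 : ℤ), ((i.2 + 1 : ℕ) : ℤ)))
    have h5 : cf p1 ((i.1 : ℤ), ((i.2 + 1 : ℕ) : ℤ)) =
        -d * cf (TT D k (CMC.ss D d p1 p2 * sig D.ρ p2)) ((i.1 : ℤ), ((i.2 + 1 : ℕ) : ℤ)) := by
      conv_lhs => rw [h.z1]
      rw [cf_sub, cf_smul, cf_mono_ne (g := ((1 : ℤ), (0 : ℤ))) (fun e => by
        have : ((i.2 + 1 : ℕ) : ℤ) = 0 := congrArg Prod.snd e
        omega)]
      ring
    rw [h5]; ring
  rw [h1, CMC.ev2_smul (w0_le_wb D.ρ) hw hv, e_kv hw hv k (suppIn_mulQ h.ss h.q2),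
    em hw hv h.ss h.q2, ev2_sig]
  push_cast
  ring

theorem IsZ.e_e2 (h : IsZ D d τ k p1 p2) : ev2 (dv (arr p2)) w v =
    ev2 (arr (CMC.ss D d p1 p2)) w v * ev1 (ark k) v * ev2 (arr p1) v w := by
  have h1 : dv (arr p2) = arr (io D.ρ k * rab D.ρ (CMC.ss D d p1 p2 * sig D.ρ p1)) := by
    have h2 := dv_arr_TT D k (CMC.ss D d p1 p2 * sig D.ρ p1)
    rw [← h2]
    funext i
    show ((i.2 : ℝ) + 1) * cf p2 ((i.1 : ℤ), ((i.2 + 1 : ℕ) : ℤ)) =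
      (((i.2 : ℝ) + 1) * cf (TT D k (CMC.ss D d p1 p2 * sig D.ρ p1))
        ((i.1 : ℤ), ((i.2 + 1 : ℕ) : ℤ)))
    have hne : ∀ m : ℤ, ((i.1 : ℤ), ((i.2 + 1 : ℕ) : ℤ)) ≠ (m, (0 : ℤ)) := fun m e => by
      have : ((i.2 + 1 : ℕ) : ℤ) = 0 := congrArg Prod.snd e
      omega
    have h5 : cf p2 ((i.1 : ℤ), ((i.2 + 1 : ℕ) : ℤ)) =
        cf (TT D k (CMC.ss D d p1 p2 * sig D.ρ p1)) ((i.1 : ℤ), ((i.2 + 1 : ℕ) : ℤ)) := by
      conv_lhs => rw [h.z2]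
      rw [cf_add, cf_add, cf_add, cf_smul, cf_smul, cf_mono_ne (hne 1), cf_mono_ne (hne 2),
        ← ma_zero, cf_mono_ne (hne 0)]
      ring
    rw [h5]
  rw [h1, e_kv hw hv k (suppIn_mulQ h.ss h.q1), em hw hv h.ss h.q1, ev2_sig]
  ring

end

theorem IsZ.e_i1 (h : IsZ D d τ k p1 p2) {w : ℂ} (hw : ‖w‖ ≤ D.ρ) : ev2 (arr p1) w 0 = w := by
  have h0 : ‖(0 : ℂ)‖ ≤ D.ρ := by rw [norm_zero]; exact D.ρ.pos.le
  have o1 : ev2 (arr (ma D.ρ 1 0)) w 0 = w := by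
    have := eo (D := D) hw h0 1 0
    simpa using this
  rw [h.z1, eb hw h0, es hw h0, ev2_TT_zero, o1]
  simp

theorem IsZ.e_i2 (h : IsZ D d τ k p1 p2) {w : ℂ} (hw : ‖w‖ ≤ D.ρ) :
    ev2 (arr p2) w 0 = 1 + τ * w + D.b * w ^ 2 := by
  have h0 : ‖(0 : ℂ)‖ ≤ D.ρ := by rw [norm_zero]; exact D.ρ.pos.le
  have o1 : ev2 (arr (ma D.ρ 1 0)) w 0 = w := by
    have := eo (D := D) hw h0 1 0
    simpa using this
  have o2 : ev2 (arr (ma D.ρ 2 0)) w 0 = w ^ 2 := by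
    have := eo (D := D) hw h0 2 0
    simpa using this
  rw [h.z2, ea hw h0, ea hw h0, ea hw h0, es hw h0, es hw h0, ev2_TT_zero, o1, o2]
  have e1 : ev2 (arr (1 : Aa D.ρ)) w 0 = 1 := by
    rw [← ma_zero]
    have := eo (D := D) hw h0 0 0
    simpa using this
  rw [e1]
  simp

/-- `∂_w` of the array of `TT k (e0w g)` is `0` -/
theorem dw_arr_TT_e0w (k : Ak D.ρ) (g : Aa D.ρ) : dw (arr (TT D k (e0w D g))) = fun _ => 0 := by
  funext i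
  show ((i.1 : ℝ) + 1) * arr (TT D k (e0w D g)) (i.1 + 1, i.2) = 0
  rw [arr_TT_e0w, mul_zero]

section
variable {w v : ℂ} (hw : ‖w‖ ≤ D.ρ) (hv : ‖v‖ ≤ D.ρ)
include hw hv

theorem e_TW {k : Ak D.ρ} {g : Aa D.ρ} (hg : SuppIn Quad g) :
    ev2 (dw (arr (TW D k g))) w v = ev1 (ark k) w * ev2 (arr g) w v := by
  rw [dw_arr_TW, ev2_swap (arr (io D.ρ k * rab D.ρ (sig D.ρ g))) w v,
    e_kv hv hw k (suppIn_sig hg), ev2_sig]

theorem IsZ.e_ey (h : IsZ D d τ k p1 p2) : ev2 (dw (arr (YY D k p1 p2))) w v =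
    ev1 (ark k) w * (ev2 (arr p1) w v * ev2 (arr p2) w v) := by
  have h1 : dw (arr (YY D k p1 p2)) = dw (arr (TW D k (p1 * p2))) := by
    funext i
    have h2 := congrFun (dw_arr_TT_e0w k (sig D.ρ p1 * sig D.ρ p2)) i
    have h3 : ((i.1 : ℝ) + 1) * arr (TT D k (e0w D (sig D.ρ p1 * sig D.ρ p2))) (i.1 + 1, i.2) = 0 :=
      h2
    show ((i.1 : ℝ) + 1) * arr (TW D k (p1 * p2) + TT D k (e0w D (sig D.ρ p1 * sig D.ρ p2)))
      (i.1 + 1, i.2) = ((i.1 : ℝ) + 1) * arr (TW D k (p1 * p2)) (i.1 + 1, i.2)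
    have h4 : arr (TW D k (p1 * p2) + TT D k (e0w D (sig D.ρ p1 * sig D.ρ p2))) (i.1 + 1, i.2) =
      arr (TW D k (p1 * p2)) (i.1 + 1, i.2) +
        arr (TT D k (e0w D (sig D.ρ p1 * sig D.ρ p2))) (i.1 + 1, i.2) := cf_add _ _ _
    rw [h4, mul_add, h3, add_zero]
  rw [h1, e_TW hw hv (suppIn_mulQ h.s1 h.s2), em hw hv h.s1 h.s2]

theorem IsZ.e_ez (h : IsZ D d τ k p1 p2) : ev2 (dw (arr (ZZ D d k p1 p2))) w v =
    ev1 (ark k) w * ev2 (arr p1) w v ^ 2 := by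
  have h1 : dw (arr (ZZ D d k p1 p2)) = dw (arr (TW D k (p1 * p1))) := by
    funext i
    have h2 := congrFun (dw_arr_TT_e0w k (sig D.ρ p2 * sig D.ρ p2)) i
    have h3 : ((i.1 : ℝ) + 1) * arr (TT D k (e0w D (sig D.ρ p2 * sig D.ρ p2))) (i.1 + 1, i.2) = 0 :=
      h2
    show ((i.1 : ℝ) + 1) * arr (TW D k (p1 * p1) - d • TT D k (e0w D (sig D.ρ p2 * sig D.ρ p2)))
      (i.1 + 1, i.2) = ((i.1 : ℝ) + 1) * arr (TW D k (p1 * p1)) (i.1 + 1, i.2)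
    have h4 : arr (TW D k (p1 * p1) - d • TT D k (e0w D (sig D.ρ p2 * sig D.ρ p2))) (i.1 + 1, i.2) =
      arr (TW D k (p1 * p1)) (i.1 + 1, i.2) -
        d * arr (TT D k (e0w D (sig D.ρ p2 * sig D.ρ p2))) (i.1 + 1, i.2) := by
      have h5 : arr (TW D k (p1 * p1) - d • TT D k (e0w D (sig D.ρ p2 * sig D.ρ p2)))
          (i.1 + 1, i.2) = arr (TW D k (p1 * p1)) (i.1 + 1, i.2) -
          cf (d • TT D k (e0w D (sig D.ρ p2 * sig D.ρ p2))) (((i.1 + 1 : ℕ) : ℤ), (i.2 : ℤ)) :=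
        cf_sub _ _ _
      rw [h5, cf_smul]
      rfl
    rw [h4, mul_sub]
    have h6 : ((i.1 : ℝ) + 1) * (d * arr (TT D k (e0w D (sig D.ρ p2 * sig D.ρ p2)))
        (i.1 + 1, i.2)) = d * (((i.1 : ℝ) + 1) *
          arr (TT D k (e0w D (sig D.ρ p2 * sig D.ρ p2))) (i.1 + 1, i.2)) := by ring
    rw [h6, h3, mul_zero, sub_zero]
  rw [h1, e_TW hw hv (suppIn_mulQ h.s1 h.s1), em hw hv h.s1 h.s1, pow_two]

end

theorem e_TT0 {v : ℂ} (hv : ‖v‖ ≤ D.ρ) {k : Ak D.ρ} {g : Aa D.ρ} (hg : SuppIn Quad g) :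
    ev2 (dv (arr (TT D k (e0w D g)))) 0 v = ev1 (ark k) v * ev2 (arr g) 0 v := by
  have h0 : ‖(0 : ℂ)‖ ≤ D.ρ := by rw [norm_zero]; exact D.ρ.pos.le
  rw [dv_arr_TT, e_kv h0 hv k (suppIn_e0w D hg), ev2_e0w]

theorem dv_TW_zero (k : Ak D.ρ) (g : Aa D.ρ) (n : ℕ) : dv (arr (TW D k g)) (0, n) = 0 := by
  show ((n : ℝ) + 1) * arr (sig D.ρ (TT D k (sig D.ρ g))) (0, n + 1) = 0
  rw [arr_sig, arr_TT_zero, mul_zero]

theorem IsZ.e_ey0 (h : IsZ D d τ k p1 p2) {v : ℂ} (hv : ‖v‖ ≤ D.ρ) :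
    ev2 (dv (arr (YY D k p1 p2))) 0 v =
      ev1 (ark k) v * (ev2 (arr p1) v 0 * ev2 (arr p2) v 0) := by
  have h0 : ‖(0 : ℂ)‖ ≤ D.ρ := by rw [norm_zero]; exact D.ρ.pos.le
  have h1 : ev2 (dv (arr (YY D k p1 p2))) 0 v =
      ev2 (dv (arr (TT D k (e0w D (sig D.ρ p1 * sig D.ρ p2))))) 0 v := by
    refine ev2_zero_congr (fun n => ?_) v
    have h2 := dv_TW_zero k (p1 * p2) n
    have h2' : ((n : ℝ) + 1) * arr (TW D k (p1 * p2)) (0, n + 1) = 0 := h2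
    show ((n : ℝ) + 1) * arr (TW D k (p1 * p2) + TT D k (e0w D (sig D.ρ p1 * sig D.ρ p2)))
      (0, n + 1) = ((n : ℝ) + 1) * arr (TT D k (e0w D (sig D.ρ p1 * sig D.ρ p2))) (0, n + 1)
    have h4 : arr (TW D k (p1 * p2) + TT D k (e0w D (sig D.ρ p1 * sig D.ρ p2))) (0, n + 1) =
      arr (TW D k (p1 * p2)) (0, n + 1) +
        arr (TT D k (e0w D (sig D.ρ p1 * sig D.ρ p2))) (0, n + 1) := cf_add _ _ _
    rw [h4, mul_add, h2', zero_add]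
  rw [h1, e_TT0 hv (suppIn_mulQ h.q1 h.q2), em h0 hv h.q1 h.q2, ev2_sig, ev2_sig]

theorem IsZ.e_ez0 (h : IsZ D d τ k p1 p2) {v : ℂ} (hv : ‖v‖ ≤ D.ρ) :
    ev2 (dv (arr (ZZ D d k p1 p2))) 0 v =
      -(d * (ev1 (ark k) v * ev2 (arr p2) v 0 ^ 2)) := by
  have h0 : ‖(0 : ℂ)‖ ≤ D.ρ := by rw [norm_zero]; exact D.ρ.pos.le
  have hd : dv (arr ((-d) • TT D k (e0w D (sig D.ρ p2 * sig D.ρ p2)))) =
      arr ((-d) • (io D.ρ k * rab D.ρ (e0w D (sig D.ρ p2 * sig D.ρ p2)))) := by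
    funext i
    have h2 := congrFun (dv_arr_TT D k (e0w D (sig D.ρ p2 * sig D.ρ p2))) i
    show ((i.2 : ℝ) + 1) * cf ((-d) • TT D k (e0w D (sig D.ρ p2 * sig D.ρ p2)))
      ((i.1 : ℤ), ((i.2 + 1 : ℕ) : ℤ)) =
      cf ((-d) • (io D.ρ k * rab D.ρ (e0w D (sig D.ρ p2 * sig D.ρ p2)))) ((i.1 : ℤ), (i.2 : ℤ))
    rw [cf_smul, cf_smul]
    have h3 : ((i.2 : ℝ) + 1) * cf (TT D k (e0w D (sig D.ρ p2 * sig D.ρ p2)))
      ((i.1 : ℤ), ((i.2 + 1 : ℕ) : ℤ)) =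
      cf (io D.ρ k * rab D.ρ (e0w D (sig D.ρ p2 * sig D.ρ p2))) ((i.1 : ℤ), (i.2 : ℤ)) := h2
    rw [← h3]; ring
  have h1 : ev2 (dv (arr (ZZ D d k p1 p2))) 0 v =
      ev2 (dv (arr ((-d) • TT D k (e0w D (sig D.ρ p2 * sig D.ρ p2))))) 0 v := by
    refine ev2_zero_congr (fun n => ?_) v
    have h2 := dv_TW_zero k (p1 * p1) n
    have h2' : ((n : ℝ) + 1) * cf (TW D k (p1 * p1)) (((0 : ℕ) : ℤ), ((n + 1 : ℕ) : ℤ)) = 0 := h2
    show ((n : ℝ) + 1) * cf (TW D k (p1 * p1) - d • TT D k (e0w D (sig D.ρ p2 * sig D.ρ p2)))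
      (((0 : ℕ) : ℤ), ((n + 1 : ℕ) : ℤ)) = ((n : ℝ) + 1) *
        cf ((-d) • TT D k (e0w D (sig D.ρ p2 * sig D.ρ p2))) (((0 : ℕ) : ℤ), ((n + 1 : ℕ) : ℤ))
    rw [cf_sub, cf_smul, cf_smul, mul_sub, h2']
    ring
  rw [h1, hd, CMC.ev2_smul (w0_le_wb D.ρ) h0 hv, e_kv h0 hv k
    (suppIn_e0w D (suppIn_mulQ h.q2 h.q2)), ev2_e0w, em h0 hv h.q2 h.q2, ev2_sig]
  push_cast
  ring

theorem IsZ.e_pl (h : IsZ D d τ k p1 p2) {w : ℂ} (hw : ‖w‖ = 1) :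
    (w * (D.b * w ^ 2 - 1) * (ev2 (arr p1) (conj w) w * ev2 (arr p2) (conj w) w)).im = 0 := by
  have hw1 : ‖w‖ ≤ D.ρ := by rw [hw]; exact D.ρ.2
  have hv1 : ‖conj w‖ ≤ D.ρ := by rw [RCLike.norm_conj]; exact hw1
  have key := im_E1 D.ρ hw (c := (D.b • ts D.ρ 2 - 1) * ts D.ρ 1 *
    bd D.ρ (sig D.ρ p1 * sig D.ρ p2)) (fun n hn => by
      have := h.z3 n hn
      rw [LL_apply, cf_oddP D.ρ _ hn, sub_eq_zero] at this
      exact this)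
  rw [E1_mul, E1_mul, E1_bd D.ρ hw (suppIn_mulQ h.q1 h.q2), em hw1 hv1 h.q1 h.q2, ev2_sig,
    ev2_sig, map_sub, map_smul, E1_mono, E1_mono, ← ts_zero, E1_mono] at key
  have e : ((D.b • w ^ (2 : ℤ) - w ^ (0 : ℤ)) * w ^ (1 : ℤ) *
      (ev2 (arr p1) (conj w) w * ev2 (arr p2) (conj w) w)) =
      (w * (D.b * w ^ 2 - 1) * (ev2 (arr p1) (conj w) w * ev2 (arr p2) (conj w) w)) := by
    rw [Complex.real_smul, zpow_zero, zpow_one, show (2 : ℤ) = ((2 : ℕ) : ℤ) from rfl,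
      zpow_natCast]
    ring
  rw [e] at key
  exact key

end CMC
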