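import Mathlib
import Pool.Agent.Lib.MP_479d4c_gt.H85.Out2
import Pool.Agent.Lib.MP_479d4c_gt.H79.Base

/-!
# EXI: the existence statement `ExiS`
-/

open scoped ENNReal BigOperators ComplexConjugate
noncomputable section
namespace CMC
open A1 CMC82

/-- `ρ = 6/5`, `b = 1/2` -/
def D0 : Dat where
  ρ := ⟨6 / 5, by norm_num⟩
  b := 1 / 2
  b0 := by norm_num
  hb := by norm_num

theorem D0_ρ : ((D0.ρ : Rad) : ℝ) = 6 / 5 := rfl
theorem D0_b : D0.b = 1 / 2 := rfl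

theorem cfm (ρ : Rad) (a b m n : ℕ) :
    cf (ma ρ (a : ℤ) (b : ℤ)) ((m : ℤ), (n : ℤ)) = if (m, n) = (a, b) then 1 else 0 := by
  classical
  rw [cf_mono]
  by_cases h : (m, n) = (a, b)
  · rw [if_pos h, if_pos (by
      have h1 : m = a := congrArg Prod.fst h
      have h2 : n = b := congrArg Prod.snd h
      rw [h1, h2])]
  · rw [if_neg h, if_neg (fun e : ((m : ℤ), (n : ℤ)) = ((a : ℤ), (b : ℤ)) => h (by
      have h1 : (m : ℤ) = a := congrArg Prod.fst e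
      have h2 : (n : ℤ) = b := congrArg Prod.snd e
      have h1' : m = a := by exact_mod_cast h1
      have h2' : n = b := by exact_mod_cast h2
      rw [h1', h2']))]

theorem arr_sg0 : arr (SG D0 (x0 D0)) = sg0 := by
  funext i
  obtain ⟨m, n⟩ := i
  rw [SG_base]
  exact cfm D0.ρ 1 1 m n

theorem arr_be0 : arr (BE D0 (x0 D0)) = be0 := by
  funext i
  obtain ⟨m, n⟩ := i
  rw [Base79.BE_base]
  show cf (ma D0.ρ 0 1 + D0.b • ma D0.ρ 2 1) ((m : ℤ), (n : ℤ)) = be0 (m, n)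
  have h1 := cfm D0.ρ 0 1 m n
  have h2 := cfm D0.ρ 2 1 m n
  push_cast at h1 h2
  rw [cf_add, cf_smul, h1, h2, D0_b]
  unfold be0
  by_cases e1 : (m, n) = (0, 1)
  · rw [if_pos e1, if_pos e1, if_neg (fun e => by rw [e1] at e; exact absurd e (by decide))]
    ring
  · rw [if_neg e1, if_neg e1]
    by_cases e2 : (m, n) = (2, 1)
    · rw [if_pos e2, if_pos e2]; ring
    · rw [if_neg e2, if_neg e2]; ring

theorem arr_ga0 : arr (GA D0 (x0 D0)) = ga0 := by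
  funext i
  obtain ⟨m, n⟩ := i
  rw [Base79.GA_base]
  have e : (1 + D0.b • ma D0.ρ 2 0) * (1 + D0.b • ma D0.ρ 0 2) -
      D0.b • (ma D0.ρ 3 1 + ma D0.ρ 1 3) =
      ma D0.ρ 0 0 + D0.b • ma D0.ρ 2 0 + D0.b • ma D0.ρ 0 2 + (D0.b * D0.b) • ma D0.ρ 2 2 -
        D0.b • ma D0.ρ 3 1 - D0.b • ma D0.ρ 1 3 := by
    have h := ma_mul D0.ρ 2 0 0 2
    norm_num at h
    rw [add_mul, mul_add, mul_add, one_mul, one_mul, mul_one, smul_mul_smul_comm, h, smul_add,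
      ma_zero]
    abel
  rw [e]
  show cf (ma D0.ρ 0 0 + D0.b • ma D0.ρ 2 0 + D0.b • ma D0.ρ 0 2 + (D0.b * D0.b) • ma D0.ρ 2 2 -
        D0.b • ma D0.ρ 3 1 - D0.b • ma D0.ρ 1 3) ((m : ℤ), (n : ℤ)) = ga0 (m, n)
  have h1 := cfm D0.ρ 0 0 m n
  have h2 := cfm D0.ρ 2 0 m n
  have h3 := cfm D0.ρ 0 2 m n
  have h4 := cfm D0.ρ 2 2 m n
  have h5 := cfm D0.ρ 3 1 m n
  have h6 := cfm D0.ρ 1 3 m n
  push_cast at h1 h2 h3 h4 h5 h6
  simp only [cf_add, cf_sub, cf_smul, h1, h2, h3, h4, h5, h6, D0_b]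
  unfold ga0
  simp only [Prod.mk.injEq]
  split_ifs <;> first | omega | (norm_num)

/-- **EXI.** -/
theorem exi_st : ExiS := by
  intro η hη
  have hS := (continuous_SG D0).continuousAt (x := x0 D0)
  have hB := (continuous_BE D0).continuousAt (x := x0 D0)
  have hG := (continuous_GA D0).continuousAt (x := x0 D0)
  obtain ⟨δ1, hδ1, hS'⟩ := Metric.continuousAt_iff.1 hS η hη
  obtain ⟨δ2, hδ2, hB'⟩ := Metric.continuousAt_iff.1 hB η hη
  obtain ⟨δ3, hδ3, hG'⟩ := Metric.continuousAt_iff.1 hG η hη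
  set δ := min δ1 (min δ2 δ3) with hδ
  have hδ0 : 0 < δ := lt_min hδ1 (lt_min hδ2 hδ3)
  obtain ⟨d0, hd0, H⟩ := exists_zero D0 hδ0
  refine ⟨min d0 δ, lt_min hd0 hδ0, fun d hd hdd => ?_⟩
  have hd1 : |d| < d0 := by
    rw [abs_of_pos hd]; exact hdd.trans_le (min_le_left _ _)
  have hd2 : |d| < δ := by
    rw [abs_of_pos hd]; exact hdd.trans_le (min_le_right _ _)
  obtain ⟨u, hF, hu⟩ := H d hd1
  have hz := isZ_of_FF D0 hF
  have hdist : dist ((d, u) : ℝ × UU D0) (x0 D0) < δ := by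
    rw [dist_eq_norm]
    have e : ((d, u) : ℝ × UU D0) - x0 D0 = (d, u - (x0 D0).2) := by
      unfold x0
      simp
    rw [e, Prod.norm_mk]
    exact max_lt (by simpa using hd2) hu
  have nS : Near η (arr (SG D0 (d, u))) sg0 := by
    rw [← arr_sg0]
    refine near_arr D0_ρ (le_of_lt ?_)
    rw [← dist_eq_norm]
    exact hS' (hdist.trans_le (min_le_left _ _))
  have nB : Near η (arr (BE D0 (d, u))) be0 := by
    rw [← arr_be0]
    refine near_arr D0_ρ (le_of_lt ?_)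
    rw [← dist_eq_norm]
    exact hB' (hdist.trans_le ((min_le_right _ _).trans (min_le_left _ _)))
  have nG : Near η (arr (GA D0 (d, u))) ga0 := by
    rw [← arr_ga0]
    refine near_arr D0_ρ (le_of_lt ?_)
    rw [← dist_eq_norm]
    exact hG' (hdist.trans_le ((min_le_right _ _).trans (min_le_right _ _)))
  obtain ⟨p1, p2, k, τ, r⟩ := u
  simp only at hz
  have hle : ∀ {w : ℂ}, ‖w‖ < 6 / 5 → ‖w‖ ≤ ((D0.ρ : Rad) : ℝ) := fun h => by
    rw [D0_ρ]; exact h.le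
  refine ⟨τ, ark k, arr p1, arr p2, arr (YY D0 k p1 p2), arr (ZZ D0 d k p1 p2),
    arr (SG D0 (d, (p1, p2, k, τ, r))), arr (BE D0 (d, (p1, p2, k, τ, r))),
    arr (GA D0 (d, (p1, p2, k, τ, r))), ?_, ⟨nS, nB, nG⟩⟩
  constructor
  case d_pos => exact hd
  case c1 => exact fn_arr D0_ρ _
  case c2 => exact fn_arr D0_ρ _
  case cy => exact fn_arr D0_ρ _
  case cz => exact fn_arr D0_ρ _
  case cs => exact fn_arr D0_ρ _
  case cb => exact fn_arr D0_ρ _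
  case cg => exact fn_arr D0_ρ _
  case i1 => intro w hw; exact hz.e_i1 (hle hw)
  case i2 =>
    intro w hw
    rw [hz.e_i2 (hle hw), D0_b]
    push_cast
    ring
  case iy =>
    show cf (YY D0 k p1 p2) (((0 : ℕ) : ℤ), ((0 : ℕ) : ℤ)) = 0
    unfold YY TW
    rw [cf_add, cf_sig]
    have h1 := cf_Tv_zero D0.ρ (io D0.ρ k * rab D0.ρ (sig D0.ρ (p1 * p2))) 0
    have h2 := cf_Tv_zero D0.ρ (io D0.ρ k * rab D0.ρ (e0w D0 (sig D0.ρ p1 * sig D0.ρ p2))) 0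
    show cf (TT D0 k (sig D0.ρ (p1 * p2))) (0, 0) +
      cf (TT D0 k (e0w D0 (sig D0.ρ p1 * sig D0.ρ p2))) (0, 0) = 0
    unfold TT
    rw [h1, h2, add_zero]
  case iz =>
    show cf (ZZ D0 d k p1 p2) (((0 : ℕ) : ℤ), ((0 : ℕ) : ℤ)) = 0
    unfold ZZ TW
    rw [cf_sub, cf_sig, cf_smul]
    have h1 := cf_Tv_zero D0.ρ (io D0.ρ k * rab D0.ρ (sig D0.ρ (p1 * p1))) 0
    have h2 := cf_Tv_zero D0.ρ (io D0.ρ k * rab D0.ρ (e0w D0 (sig D0.ρ p2 * sig D0.ρ p2))) 0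
    show cf (TT D0 k (sig D0.ρ (p1 * p1))) (0, 0) -
      d * cf (TT D0 k (e0w D0 (sig D0.ρ p2 * sig D0.ρ p2))) (0, 0) = 0
    unfold TT
    rw [h1, h2, mul_zero, sub_zero]
  case hs =>
    intro w v hw hv
    exact hz.e_s (hle hw) (hle hv)
  case hb =>
    intro w v hw hv
    have h1 := hle hw
    have h2 := hle hv
    show ev2 (arr (sig D0.ρ p1 * p2 - CMC.ss D0 d p1 p2 *
      sig D0.ρ (ZZ D0 d k p1 p2))) w v = ev2 (arr p1) v w * ev2 (arr p2) w v -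
        ev2 (arr (CMC.ss D0 d p1 p2)) w v * ev2 (arr (ZZ D0 d k p1 p2)) v w
    rw [eb h1 h2, em h1 h2 hz.q1 hz.s2, em h1 h2 hz.ss (suppIn_sig hz.zz), ev2_sig, ev2_sig]
  case hg =>
    intro w v hw hv
    have h1 := hle hw
    have h2 := hle hv
    show ev2 (arr (p2 * sig D0.ρ p2 - CMC.ss D0 d p1 p2 *
      YY D0 k p1 p2)) w v = ev2 (arr p2) w v * ev2 (arr p2) v w -
        ev2 (arr (CMC.ss D0 d p1 p2)) w v * ev2 (arr (YY D0 k p1 p2)) w v
    rw [eb h1 h2, em h1 h2 hz.s2 hz.q2, em h1 h2 hz.ss hz.yy, ev2_sig]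
  case e1 => intro w v hw hv; exact hz.e_e1 (hle hw) (hle hv)
  case e2 => intro w v hw hv; exact hz.e_e2 (hle hw) (hle hv)
  case ey => intro w v hw hv; exact hz.e_ey (hle hw) (hle hv)
  case ey0 => intro v hv; exact hz.e_ey0 (hle hv)
  case ez => intro w v hw hv; exact hz.e_ez (hle hw) (hle hv)
  case ez0 => intro v hv; exact hz.e_ez0 (hle hv)
  case pl =>
    intro w hw
    have h := hz.e_pl hw
    rw [D0_b] at h
    have e : (w * (w ^ 2 / 2 - 1)) = (w * (((1 / 2 : ℝ) : ℂ) * w ^ 2 - 1)) := by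
      push_cast
      ring
    rw [e]
    exact h

end CMC
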